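import Pool.Agent.H8AB.Step

/-!
# All bases with large exponents are constant: admissible tuples of products
-/

set_option autoImplicit false

namespace Pool.Agent.H8AB

open Filter Pool.Agent.Y902.GN Pool.Agent.N741.HB Pool.Agent.H8FC

/-- the terms -/
def tm {N k : ℕ} (e : Fin k → Fin N → ℕ) (u : Fin k → ℤ) (y : Fin N → ℤ) (i : Fin k) : ℤ :=
  u i * ∏ j, y j ^ e i j

/-- the common assumptions -/
structure HB (Y : ℕ → ℕ) {N k : ℕ} (Om : ℕ → Finset (Fin N → ℤ)) (e : ℕ → Fin k → Fin N → ℕ)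
    (u : ℕ → Fin k → ℤ) (Sh : ℕ → Fin N → ℤ) (ws : ℕ → ℕ) : Prop where
  hws : Few Y ws
  bdd : Bdd Y Om
  he : Few Y (fun ν => ∑ i, ∑ j, e ν i j)
  hu : ∀ᶠ ν in (Uf : Filter ℕ), ∀ i, u ν i ≠ 0 ∧ |u ν i| ≤ 2 ^ ws ν
  hSh : ∀ᶠ ν in (Uf : Filter ℕ), ∀ j, 0 ≤ Sh ν j ∧ Sh ν j ≤ 2 ^ ws ν
  hyb : ∀ᶠ ν in (Uf : Filter ℕ), ∀ t ∈ Om ν, ∀ j, Sh ν j + t j ≤ 2 ^ ws ν
  htpos : ∀ᶠ ν in (Uf : Filter ℕ), ∀ t ∈ Om ν, ∀ j, 0 < t j
  hcop : ∀ᶠ ν in (Uf : Filter ℕ), ∀ t ∈ Om ν, ∀ j k, j ≠ k →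
      IsCoprime (Sh ν j + t j) (Sh ν k + t k)
  hgcd : ∀ᶠ ν in (Uf : Filter ℕ), ∀ t ∈ Om ν, ∀ d : ℤ,
      (∀ i, d ∣ tm (e ν) (u ν) (fun j => Sh ν j + t j) i) → IsUnit d

variable {Y : ℕ → ℕ} {N k : ℕ} {Om Om' : ℕ → Finset (Fin N → ℤ)} {e : ℕ → Fin k → Fin N → ℕ}
  {u : ℕ → Fin k → ℤ} {Sh : ℕ → Fin N → ℤ} {ws : ℕ → ℕ}

theorem HB.mono (h : HB Y Om e u Sh ws) (hO : ∀ᶠ ν in (Uf : Filter ℕ), Om' ν ⊆ Om ν) :
    HB Y Om' e u Sh ws where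
  hws := h.hws
  bdd := by
    filter_upwards [h.bdd, hO] with ν h1 h2 t ht
    exact h1 t (h2 ht)
  he := h.he
  hu := h.hu
  hSh := h.hSh
  hyb := by
    filter_upwards [h.hyb, hO] with ν h1 h2 t ht
    exact h1 t (h2 ht)
  htpos := by
    filter_upwards [h.htpos, hO] with ν h1 h2 t ht
    exact h1 t (h2 ht)
  hcop := by
    filter_upwards [h.hcop, hO] with ν h1 h2 t ht
    exact h1 t (h2 ht)
  hgcd := by
    filter_upwards [h.hgcd, hO] with ν h1 h2 t ht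
    exact h1 t (h2 ht)

/-- either a base is one, or it does not occur in some term -/
theorem HB.split (hY : ∀ m : ℕ, ∀ᶠ ν in (Uf : Filter ℕ), m ≤ Y ν) (h : HB Y Om e u Sh ws)
    (hb : Big Y Om) (j₀ : Fin N) :
    (∃ Om₃ : ℕ → Finset (Fin N → ℤ), (∀ᶠ ν in (Uf : Filter ℕ), Om₃ ν ⊆ Om ν) ∧ Big Y Om₃ ∧
      ∀ᶠ ν in (Uf : Filter ℕ), ∀ t ∈ Om₃ ν, ∀ t' ∈ Om₃ ν, t j₀ = t' j₀) ∨
    ∃ i' : Fin k, ∀ᶠ ν in (Uf : Filter ℕ), e ν i' j₀ = 0 := by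
  classical
  rcases hb.or hY (B := fun ν => (Om ν).filter fun t => Sh ν j₀ + t j₀ = 1)
    (C := fun ν => (Om ν).filter fun t => ¬ Sh ν j₀ + t j₀ = 1)
    (Filter.Eventually.of_forall fun ν => by rw [Finset.filter_union_filter_not_eq]) with h1 | h1
  · left
    refine ⟨_, Filter.Eventually.of_forall fun ν => Finset.filter_subset _ _, h1, ?_⟩
    refine Filter.Eventually.of_forall fun ν t ht t' ht' => ?_
    have h2 := (Finset.mem_filter.1 ht).2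
    have h3 := (Finset.mem_filter.1 ht').2
    omega
  · right
    refine ev_exists ?_
    filter_upwards [h1.nonempty, h.hgcd, h.hSh, h.htpos] with ν g1 g2 g3 g4
    obtain ⟨t, ht⟩ := g1
    obtain ⟨ht1, ht2⟩ := Finset.mem_filter.1 ht
    by_contra hcon
    push Not at hcon
    have h5 := g2 t ht1 (Sh ν j₀ + t j₀) fun i => by
      unfold tm
      refine Dvd.dvd.mul_left ?_ _
      refine dvd_trans (dvd_pow_self _ (hcon i)) ?_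
      exact Finset.dvd_prod_of_mem (fun j => (Sh ν j + t j) ^ e ν i j) (Finset.mem_univ j₀)
    have k1 := (g3 j₀).1
    have k2 := g4 t ht1 j₀
    rcases Int.isUnit_iff.1 h5 with h6 | h6 <;> omega

theorem abs_prod_le {N : ℕ} (y : Fin N → ℤ) (f : Fin N → ℕ) (w E : ℕ)
    (hy : ∀ j, 0 < y j ∧ y j ≤ 2 ^ w) (hf : ∑ j, f j ≤ E) : |∏ j, y j ^ f j| ≤ 2 ^ (w * E) := by
  rw [Finset.abs_prod]
  calc ∏ j, |y j ^ f j| ≤ ∏ j, (2 : ℤ) ^ (w * f j) := by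
        refine Finset.prod_le_prod (fun j _ => abs_nonneg _) fun j _ => ?_
        rw [abs_pow, abs_of_pos (hy j).1, pow_mul]
        exact pow_le_pow_left₀ (hy j).1.le (hy j).2 _
    _ = (2 : ℤ) ^ (w * ∑ j, f j) := by
        rw [Finset.prod_pow_eq_pow_sum, Finset.mul_sum]
    _ ≤ 2 ^ (w * E) := pow_le_pow_right₀ (by norm_num) (Nat.mul_le_mul_left _ hf)

end Pool.Agent.H8AB
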