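import Mathlib
import Pool.Agent.H353R2.Z2
import Pool.Agent.Y902.GN.Few

/-!
# Divisors in short intervals, and products of powers of integers of short intervals
-/

set_option autoImplicit false

namespace Pool.Agent.H8AB

open Filter Pool.Agent.Y902.GN

theorem gcd_lcm_dvd (a : ℕ) (s : Finset ℕ) :
    Nat.gcd a (s.lcm id) ∣ ∏ d ∈ s, Nat.gcd a d := by
  classical
  induction s using Finset.induction_on with
  | empty => simp
  | insert b s hb ih =>
    rw [Finset.prod_insert hb, Finset.lcm_insert]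
    have h1 : Nat.gcd a (Nat.lcm b (s.lcm id)) ∣ Nat.gcd a (b * s.lcm id) :=
      Nat.gcd_dvd_gcd_of_dvd_right _ (Nat.lcm_dvd_mul _ _)
    have h2 : Nat.gcd a (b * s.lcm id) ∣ Nat.gcd a b * Nat.gcd a (s.lcm id) :=
      Nat.gcd_mul_right_dvd_mul_gcd _ _ _
    exact (h1.trans h2).trans (Nat.mul_dvd_mul_left _ ih)

theorem gcd_le_diff {a d M Y : ℕ} (hne : a ≠ d) (ha : M < a ∧ a ≤ M + Y) (hd : M < d ∧ d ≤ M + Y) :
    Nat.gcd a d ≤ Y := by
  rcases lt_or_gt_of_ne hne with h | h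
  · have h1 : Nat.gcd a d ∣ d - a := Nat.dvd_sub (Nat.gcd_dvd_right _ _) (Nat.gcd_dvd_left _ _)
    exact (Nat.le_of_dvd (by omega) h1).trans (by omega)
  · have h1 : Nat.gcd a d ∣ a - d := Nat.dvd_sub (Nat.gcd_dvd_left _ _) (Nat.gcd_dvd_right _ _)
    exact (Nat.le_of_dvd (by omega) h1).trans (by omega)

/-- the least common multiple of integers of a short interval is large -/
theorem prod_le_lcm (M Y : ℕ) (s : Finset ℕ) (hs : ∀ d ∈ s, M < d ∧ d ≤ M + Y) :
    ∏ d ∈ s, d ≤ (s.lcm id) * Y ^ (s.card * s.card) := by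
  classical
  induction s using Finset.induction_on with
  | empty => simp
  | insert b s hb ih =>
    have hb' := hs b (Finset.mem_insert_self _ _)
    have hs' : ∀ d ∈ s, M < d ∧ d ≤ M + Y := fun d hd => hs d (Finset.mem_insert_of_mem hd)
    have hY : 1 ≤ Y := by omega
    rw [Finset.prod_insert hb, Finset.lcm_insert, Finset.card_insert_of_notMem hb]
    have h1 : Nat.gcd b (s.lcm id) ≤ Y ^ s.card := by
      have h2 : ∏ d ∈ s, Nat.gcd b d ≤ Y ^ s.card := by
        refine Finset.prod_le_pow_card _ _ _ fun d hd => ?_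
        exact gcd_le_diff (fun h => hb (h ▸ hd)) hb' (hs' d hd)
      have h3 : 0 < ∏ d ∈ s, Nat.gcd b d :=
        Finset.prod_pos fun d _ => Nat.gcd_pos_of_pos_left _ (by omega)
      exact (Nat.le_of_dvd h3 (gcd_lcm_dvd b s)).trans h2
    have h4 : b * s.lcm id = Nat.gcd b (s.lcm id) * Nat.lcm b (s.lcm id) :=
      (Nat.gcd_mul_lcm _ _).symm
    calc b * ∏ d ∈ s, d ≤ b * ((s.lcm id) * Y ^ (s.card * s.card)) := Nat.mul_le_mul_left _ (ih hs')
      _ = Nat.gcd b (s.lcm id) * Nat.lcm b (s.lcm id) * Y ^ (s.card * s.card) := by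
          rw [← h4, mul_assoc]
      _ ≤ Y ^ s.card * Nat.lcm b (s.lcm id) * Y ^ (s.card * s.card) :=
          Nat.mul_le_mul_right _ (Nat.mul_le_mul_right _ h1)
      _ = Nat.lcm b (s.lcm id) * Y ^ (s.card + s.card * s.card) := by rw [pow_add]; ring
      _ ≤ Nat.lcm b (s.lcm id) * Y ^ ((s.card + 1) * (s.card + 1)) := by
          apply Nat.mul_le_mul_left
          apply Nat.pow_le_pow_right hY
          nlinarith

theorem lcm_pow_dvd {c K : ℕ} (s : Finset ℕ) (hs : ∀ d ∈ s, d ^ c ∣ K) : (s.lcm id) ^ c ∣ K := by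
  classical
  induction s using Finset.induction_on with
  | empty => simp
  | insert b s hb ih =>
    rw [Finset.lcm_insert]
    have h1 : Nat.lcm (id b) (s.lcm id) ^ c = Nat.lcm (b ^ c) ((s.lcm id) ^ c) :=
      Nat.pow_lcm_pow.symm
    show Nat.lcm (id b) (s.lcm id) ^ c ∣ K
    rw [h1]
    exact Nat.lcm_dvd (hs b (Finset.mem_insert_self _ _))
      (ih fun d hd => hs d (Finset.mem_insert_of_mem hd))

/-- the bound for the number of divisors -/
noncomputable def Db (m Y : ℕ) : ℕ :=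
  m + (Finset.Icc 1 ((2 ^ (m + 1) * Y ^ ((m + 1) * (m + 1))) ^ m)).sup fun k => k.divisors.card

/-- few integers of a short interval have `c`-th powers dividing `K`, if `K` is not too large -/
theorem card_le {m M Y K c : ℕ} (hc : 1 ≤ c) (hK : 0 < K) (s : Finset ℕ)
    (hs : ∀ d ∈ s, M < d ∧ d ≤ M + Y ∧ d ^ c ∣ K) (hKle : K ≤ ((M + Y) ^ c) ^ m) :
    s.card ≤ Db m Y := by
  classical
  rcases s.eq_empty_or_nonempty with h0 | ⟨d₀, hd₀⟩
  · rw [h0, Finset.card_empty]; exact Nat.zero_le _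
  have hY : 1 ≤ Y := by have := hs d₀ hd₀; omega
  have hlcm : ∀ s' : Finset ℕ, s' ⊆ s → s'.lcm id ≤ (M + Y) ^ m ∧ 0 < s'.lcm id := by
    intro s' hs'
    have h1 : (s'.lcm id) ^ c ∣ K := lcm_pow_dvd s' fun d hd => (hs d (hs' hd)).2.2
    have h2 : (s'.lcm id) ^ c ≤ ((M + Y) ^ m) ^ c := by
      refine (Nat.le_of_dvd hK h1).trans (hKle.trans ?_)
      rw [← pow_mul, ← pow_mul, mul_comm]
    refine ⟨(Nat.pow_le_pow_iff_left (by omega)).1 h2, ?_⟩
    rw [Nat.pos_iff_ne_zero]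
    intro h3
    rw [h3, zero_pow (by omega)] at h1
    exact hK.ne' (zero_dvd_iff.1 h1)
  by_cases hM : 2 ^ m * Y ^ ((m + 1) * (m + 1)) ≤ M
  · -- large `M`
    have : s.card ≤ m := by
      by_contra hcon
      obtain ⟨s', hs', hcard⟩ := Finset.exists_subset_card_eq (show m + 1 ≤ s.card by omega)
      obtain ⟨h1, -⟩ := hlcm s' hs'
      have h2 := prod_le_lcm M Y s' fun d hd => ⟨(hs d (hs' hd)).1, (hs d (hs' hd)).2.1⟩
      rw [hcard] at h2
      have h3 : (M + 1) ^ (m + 1) ≤ ∏ d ∈ s', d := by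
        rw [← hcard]
        exact Finset.pow_card_le_prod _ _ _ fun d hd => (hs d (hs' hd)).1
      have hYM : Y ≤ M := by
        refine le_trans ?_ hM
        calc Y = 1 * Y ^ 1 := by ring
          _ ≤ 2 ^ m * Y ^ ((m + 1) * (m + 1)) :=
            Nat.mul_le_mul (Nat.one_le_two_pow) (Nat.pow_le_pow_right hY (by nlinarith))
      have h4 : (M + Y) ^ m ≤ 2 ^ m * M ^ m := by
        rw [← mul_pow]
        exact Nat.pow_le_pow_left (by omega) _
      have h5 : (M + 1) ^ (m + 1) ≤ M ^ (m + 1) := by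
        calc (M + 1) ^ (m + 1) ≤ (s'.lcm id) * Y ^ ((m + 1) * (m + 1)) := h3.trans h2
          _ ≤ (2 ^ m * M ^ m) * Y ^ ((m + 1) * (m + 1)) := Nat.mul_le_mul_right _ (h1.trans h4)
          _ = (2 ^ m * Y ^ ((m + 1) * (m + 1))) * M ^ m := by ring
          _ ≤ M * M ^ m := Nat.mul_le_mul_right _ hM
          _ = M ^ (m + 1) := by ring
      have h6 := (Nat.pow_le_pow_iff_left (show m + 1 ≠ 0 by omega)).1 h5
      omega
    unfold Db
    omega
  · -- small `M`
    push Not at hM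
    obtain ⟨h1, h2⟩ := hlcm s subset_rfl
    have h3 : s ⊆ (s.lcm id).divisors := by
      intro d hd
      rw [Nat.mem_divisors]
      exact ⟨Finset.dvd_lcm (f := id) hd, h2.ne'⟩
    have h4 : M + Y ≤ 2 ^ (m + 1) * Y ^ ((m + 1) * (m + 1)) := by
      have h5 : Y ≤ 2 ^ m * Y ^ ((m + 1) * (m + 1)) := by
        calc Y = 1 * Y ^ 1 := by ring
          _ ≤ 2 ^ m * Y ^ ((m + 1) * (m + 1)) :=
            Nat.mul_le_mul (Nat.one_le_two_pow) (Nat.pow_le_pow_right hY (by nlinarith))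
      rw [pow_succ 2 m]
      nlinarith
    have h6 : s.lcm id ∈ Finset.Icc 1 ((2 ^ (m + 1) * Y ^ ((m + 1) * (m + 1))) ^ m) := by
      rw [Finset.mem_Icc]
      exact ⟨h2, h1.trans (Nat.pow_le_pow_left h4 m)⟩
    have h7 := Finset.le_sup (f := fun k : ℕ => k.divisors.card) h6
    have h8 := Finset.card_le_card h3
    unfold Db
    omega

theorem few_Db {Y : ℕ → ℕ} (hY : ∀ m : ℕ, ∀ᶠ ν in (Uf : Filter ℕ), m ≤ Y ν) (m : ℕ) :
    Few Y (fun ν => Db m (Y ν)) := by
  unfold Db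
  refine Few.add hY (Few.const hY m) ?_
  intro c
  -- the exponent of `Y`
  obtain ⟨T, hT⟩ : ∃ T, T = (m + 1) * (m + 1) * m := ⟨_, rfl⟩
  obtain ⟨A, hA⟩ : ∃ A, A = (2 ^ (m + 1)) ^ m := ⟨_, rfl⟩
  obtain ⟨K, hK⟩ := H353.divisor_bound (c * (T + 1))
  have hexp : ∀ y : ℕ, (2 ^ (m + 1) * y ^ ((m + 1) * (m + 1))) ^ m = A * y ^ T := by
    intro y
    rw [mul_pow, hA, hT, ← pow_mul y]
  filter_upwards [hY (K * A + 1)] with ν h1
  rw [hexp]
  obtain ⟨k, hk, hmax⟩ := Finset.exists_mem_eq_sup (Finset.Icc 1 (A * Y ν ^ T))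
    (by
      rw [Finset.nonempty_Icc, hA]
      exact Nat.mul_pos (by positivity) (Nat.pow_pos (by omega)))
    (fun k : ℕ => k.divisors.card)
  rw [hmax]
  rw [Finset.mem_Icc] at hk
  have h2 := hK k (by omega)
  have h3 : (k.divisors.card ^ c) ^ (T + 1) ≤ (Y ν) ^ (T + 1) := by
    calc (k.divisors.card ^ c) ^ (T + 1) = k.divisors.card ^ (c * (T + 1)) := by rw [pow_mul]
      _ ≤ K * k := h2
      _ ≤ K * (A * Y ν ^ T) := Nat.mul_le_mul_left _ hk.2
      _ = (K * A) * Y ν ^ T := by ring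
      _ ≤ Y ν * Y ν ^ T := Nat.mul_le_mul_right _ (by omega)
      _ = Y ν ^ (T + 1) := by ring
  exact (Nat.pow_le_pow_iff_left (by omega)).1 h3

/-- the number of the solutions of `∏ y_l ^ c_l = K` with `y_l` in short intervals is small -/
theorem card_sol {N : ℕ} (Y : ℕ) (M : Fin N → ℕ) (c : Fin N → ℕ) :
    ∀ (n : ℕ) (L : Finset (Fin N)), L.card = n → (∀ l ∈ L, 1 ≤ c l) → ∀ K : ℕ, 0 < K →
      ∀ s : Finset (Fin N → ℕ), (∀ y ∈ s, (∀ l, l ∈ L → M l < y l ∧ y l ≤ M l + Y) ∧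
        (∀ l, l ∉ L → y l = 0) ∧ ∏ l ∈ L, y l ^ c l = K) → s.card ≤ Db N Y ^ n := by
  classical
  intro n
  induction n with
  | zero =>
    intro L hL hc K hK s hs
    have hL' : L = ∅ := Finset.card_eq_zero.1 hL
    rw [pow_zero, Finset.card_le_one]
    intro y hy y' hy'
    funext l
    rw [(hs y hy).2.1 l (by rw [hL']; exact Finset.notMem_empty _),
      (hs y' hy').2.1 l (by rw [hL']; exact Finset.notMem_empty _)]
  | succ n ih =>
    intro L hL hc K hK s hs
    rcases s.eq_empty_or_nonempty with h0 | ⟨y₀, hy₀⟩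
    · rw [h0, Finset.card_empty]; exact Nat.zero_le _
    have hLne : L.Nonempty := Finset.card_pos.1 (by omega)
    obtain ⟨l₀, hl₀, hmax⟩ := Finset.exists_max_image L (fun l => (M l + Y) ^ c l) hLne
    have hLN : L.card ≤ N := by
      refine (Finset.card_le_univ L).trans ?_
      rw [Fintype.card_fin]
    have hpos : 1 ≤ (M l₀ + Y) ^ c l₀ := by
      have := (hs y₀ hy₀).1 l₀ hl₀
      exact Nat.pow_pos (by omega)
    have hKle : K ≤ ((M l₀ + Y) ^ c l₀) ^ N := by
      rw [← (hs y₀ hy₀).2.2]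
      calc ∏ l ∈ L, y₀ l ^ c l ≤ ∏ l ∈ L, (M l + Y) ^ c l :=
            Finset.prod_le_prod' fun l hl => Nat.pow_le_pow_left ((hs y₀ hy₀).1 l hl).2 _
        _ ≤ ((M l₀ + Y) ^ c l₀) ^ L.card := Finset.prod_le_pow_card _ _ _ fun l hl => hmax l hl
        _ ≤ ((M l₀ + Y) ^ c l₀) ^ N := Nat.pow_le_pow_right hpos hLN
    have hval : (s.image fun y => y l₀).card ≤ Db N Y := by
      refine card_le (hc l₀ hl₀) hK _ ?_ hKle
      intro d hd
      obtain ⟨y, hy, rfl⟩ := Finset.mem_image.1 hd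
      refine ⟨((hs y hy).1 l₀ hl₀).1, ((hs y hy).1 l₀ hl₀).2, ?_⟩
      rw [← (hs y hy).2.2]
      exact Finset.dvd_prod_of_mem (fun l => y l ^ c l) hl₀
    have hfib : ∀ v ∈ s.image (fun y => y l₀), (s.filter fun y => y l₀ = v).card ≤ Db N Y ^ n := by
      intro v hv
      have hinj : Set.InjOn (fun y : Fin N → ℕ => fun l => if l = l₀ then 0 else y l)
          (s.filter fun y => y l₀ = v : Finset (Fin N → ℕ)) := by
        intro y hy y' hy' he
        rw [Finset.mem_coe, Finset.mem_filter] at hy hy'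
        funext l
        by_cases h : l = l₀
        · rw [h, hy.2, hy'.2]
        · have h1 := congrFun he l
          simpa [h] using h1
      rw [← Finset.card_image_of_injOn hinj]
      obtain ⟨yv, hyv, hyv'⟩ := Finset.mem_image.1 hv
      have hv0 : 0 < v := by
        have := ((hs yv hyv).1 l₀ hl₀).1
        omega
      refine ih (L.erase l₀) (by rw [Finset.card_erase_of_mem hl₀, hL]; rfl)
        (fun l hl => hc l (Finset.mem_of_mem_erase hl)) (K / v ^ c l₀) ?_ _ ?_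
      · refine Nat.div_pos (Nat.le_of_dvd hK ?_) (Nat.pow_pos hv0)
        rw [← (hs yv hyv).2.2, ← hyv']
        exact Finset.dvd_prod_of_mem (fun l => yv l ^ c l) hl₀
      · intro y' hy'
        obtain ⟨y, hy, rfl⟩ := Finset.mem_image.1 hy'
        obtain ⟨hys, hyv2⟩ := Finset.mem_filter.1 hy
        obtain ⟨q1, q2, q3⟩ := hs y hys
        refine ⟨fun l hl => ?_, fun l hl => ?_, ?_⟩
        · simp only [Finset.ne_of_mem_erase hl, if_false]
          exact q1 l (Finset.mem_of_mem_erase hl)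
        · by_cases h : l = l₀
          · simp [h]
          · simp only [h, if_false]
            exact q2 l fun h' => hl (Finset.mem_erase.2 ⟨h, h'⟩)
        · have h1 : ∏ l ∈ L.erase l₀, (if l = l₀ then 0 else y l) ^ c l =
              ∏ l ∈ L.erase l₀, y l ^ c l :=
            Finset.prod_congr rfl fun l hl => by simp [Finset.ne_of_mem_erase hl]
          rw [h1]
          have h2 : y l₀ ^ c l₀ * ∏ l ∈ L.erase l₀, y l ^ c l = K := by
            rw [Finset.mul_prod_erase L (fun l => y l ^ c l) hl₀]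
            exact q3
          rw [← h2, hyv2, Nat.mul_div_cancel_left _ (Nat.pow_pos hv0)]
    calc s.card ≤ (s.image fun y => y l₀).card * Db N Y ^ n :=
          (Finset.card_le_mul_card_image _ _ hfib).trans (le_of_eq (mul_comm _ _))
      _ ≤ Db N Y * Db N Y ^ n := Nat.mul_le_mul_right _ hval
      _ = Db N Y ^ (n + 1) := by ring

end Pool.Agent.H8AB
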