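import Pool.Agent.H8AB.Nrm

/-!
# Few vectors of large parts: admissible tuples of products of powers
-/

set_option autoImplicit false

namespace Pool.Agent.H8AB

open Filter Pool.Agent.Y902.GN Pool.Agent.N741.HB Pool.Agent.H8FC

/-- the lower bound for the size parameter -/
def Y0 (ν : ℕ) : ℕ := (ν + 2) ^ (ν + 1)

/-- the threshold for the exponents -/
noncomputable def R0 (ν : ℕ) : ℕ := ⌊((2 : ℕ) : ℝ) * (Y0 ν : ℝ) ^ (1 / ((ν : ℝ) + 1))⌋₊ + 1 + (ν + 1)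

theorem R0_pos (ν : ℕ) : 1 ≤ R0 ν := by unfold R0; omega

theorem lt_R0 (ν : ℕ) : ν ≤ R0 ν := by unfold R0; omega

theorem exp_lt_R0 {ν Y : ℕ} (hY : Y ≤ Y0 ν) :
    Real.exp ((Y : ℝ) ^ (1 / ((ν : ℝ) + 1))) < 2 ^ R0 ν := by
  have h1 : (Y : ℝ) ^ (1 / ((ν : ℝ) + 1)) ≤ (Y0 ν : ℝ) ^ (1 / ((ν : ℝ) + 1)) :=
    Real.rpow_le_rpow (Nat.cast_nonneg _) (by exact_mod_cast hY) (by positivity)
  calc Real.exp ((Y : ℝ) ^ (1 / ((ν : ℝ) + 1))) ≤ Real.exp ((Y0 ν : ℝ) ^ (1 / ((ν : ℝ) + 1))) :=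
        Real.exp_le_exp.2 h1
    _ ≤ 2 ^ (⌊((2 : ℕ) : ℝ) * (Y0 ν : ℝ) ^ (1 / ((ν : ℝ) + 1))⌋₊ + 1) :=
        exp_le_two_pow (by positivity)
    _ < 2 ^ R0 ν := by
        apply pow_lt_pow_right₀ (by norm_num)
        unfold R0
        omega

theorem Y_large {Y : ℕ → ℕ} (h : ∀ ν, Y0 ν < Y ν) (m : ℕ) :
    ∀ᶠ ν in (Uf : Filter ℕ), m ≤ Y ν := by
  filter_upwards [ev_ge m] with ν h1
  have h2 := h ν
  unfold Y0 at h2
  have h3 : ν + 2 ≤ (ν + 2) ^ (ν + 1) := Nat.le_self_pow (by omega) _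
  omega

theorem Y_few {Y : ℕ → ℕ} (h : ∀ ν, Y0 ν < Y ν) : Few Y (fun ν => ν) := by
  intro m
  filter_upwards [ev_ge m] with ν h1
  have h2 := h ν
  unfold Y0 at h2
  calc ν ^ m ≤ (ν + 2) ^ m := Nat.pow_le_pow_left (by omega) _
    _ ≤ (ν + 2) ^ (ν + 1) := Nat.pow_le_pow_right (by omega) (by omega)
    _ ≤ Y ν := h2.le

theorem R0_few {Y : ℕ → ℕ} (h : ∀ ν, Y0 ν < Y ν) : Few Y R0 := by
  have hY := Y_large h
  have h1 : Few Y (fun ν => (⌊((2 : ℕ) : ℝ) * (Y ν : ℝ) ^ (1 / ((ν : ℝ) + 1))⌋₊ + 1) + (ν + 1)) :=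
    (few_rpow hY 2).add hY ((Y_few h).add hY (Few.const hY 1))
  refine h1.mono (Filter.Eventually.of_forall fun ν => ?_)
  unfold R0
  have h2 : ⌊((2 : ℕ) : ℝ) * (Y0 ν : ℝ) ^ (1 / ((ν : ℝ) + 1))⌋₊ ≤
      ⌊((2 : ℕ) : ℝ) * (Y ν : ℝ) ^ (1 / ((ν : ℝ) + 1))⌋₊ := by
    apply Nat.floor_le_floor
    apply mul_le_mul_of_nonneg_left _ (by positivity)
    exact Real.rpow_le_rpow (Nat.cast_nonneg _) (by exact_mod_cast (h ν).le) (by positivity)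
  omega

/-- no common divisor -/
def Cop {k : ℕ} (a : Fin k → ℤ) : Prop := ∀ d : ℤ, (∀ i, d ∣ a i) → IsUnit d

/-- the number of the exponent vectors -/
theorem card_exps (k N F : ℕ) :
    (Fintype.piFinset fun _ : Fin k => Fintype.piFinset fun _ : Fin N => Finset.range F).card =
      (F ^ N) ^ k := by
  rw [Fintype.card_piFinset, Finset.prod_const, Fintype.card_piFinset, Finset.prod_const,
    Finset.card_range, Finset.card_univ, Finset.card_univ, Fintype.card_fin, Fintype.card_fin]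

theorem mem_exps {k N F : ℕ} {e : Fin k → Fin N → ℕ} (h : ∀ i j, e i j < F) :
    e ∈ Fintype.piFinset fun _ : Fin k => Fintype.piFinset fun _ : Fin N => Finset.range F := by
  rw [Fintype.mem_piFinset]
  intro i
  rw [Fintype.mem_piFinset]
  intro j
  exact Finset.mem_range.2 (h i j)

/-- **Few vectors of large parts.** -/
theorem finI (n N : ℕ) (hn : 2 ≤ n) (ε : ℝ) (hε : 0 < ε) : ∃ (R : ℕ) (δ : ℝ), 0 < δ ∧
    ∀ Y : ℕ, 1 ≤ Y → ∀ (M : Fin N → ℕ) (u : Fin (n + 1) → ℤ) (T : Finset (Fin (n + 1) → ℕ)),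
      (∀ A ∈ T, ∃ (a : Fin (n + 1) → ℤ) (y : Fin N → ℕ) (e : Fin (n + 1) → Fin N → ℕ),
        Rep Y (Real.exp ((Y : ℝ) ^ δ)) M u a y e ∧ Cop a ∧ Adm a ∧ A = parts R y e) →
      (T.card : ℝ) ≤ (Y : ℝ) ^ ε := by
  classical
  by_contra hcon
  push Not at hcon
  have h := fun ν : ℕ => hcon (R0 ν) (1 / ((ν : ℝ) + 1)) (by positivity)
  choose Y hY1 M u T hT hTc using h
  have hYr : ∀ ν, (1 : ℝ) ≤ (Y ν : ℝ) ^ ε := fun ν =>
    Real.one_le_rpow (by exact_mod_cast hY1 ν) hε.le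
  have hYb : ∀ ν, Y0 ν < Y ν := by
    intro ν
    by_contra hc
    push Not at hc
    have h1 : T ν ⊆ {1} := by
      intro A hA
      obtain ⟨a, y, e, g1, -, -, g2⟩ := hT ν A hA
      rw [Finset.mem_singleton, g2]
      exact g1.parts_one (exp_lt_R0 hc)
    have h2 := Finset.card_le_card h1
    rw [Finset.card_singleton] at h2
    have h3 : ((T ν).card : ℝ) ≤ 1 := by exact_mod_cast h2
    linarith [hTc ν, hYr ν]
  have hY := Y_large hYb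
  have hYv := Y_few hYb
  obtain ⟨F, hF⟩ : ∃ F : ℕ → ℕ, ∀ ν, F ν = ⌊((2 : ℕ) : ℝ) * (Y ν : ℝ) ^ (1 / ((ν : ℝ) + 1))⌋₊ + 1 :=
    ⟨_, fun _ => rfl⟩
  have fewF : Few Y F := by
    have : F = fun ν => ⌊((2 : ℕ) : ℝ) * (Y ν : ℝ) ^ (1 / ((ν : ℝ) + 1))⌋₊ + 1 := funext hF
    rw [this]
    exact few_rpow hY 2
  have hE : ∀ ν, Real.exp ((Y ν : ℝ) ^ (1 / ((ν : ℝ) + 1))) ≤ 2 ^ F ν := fun ν => by
    rw [hF]
    exact exp_le_two_pow (by positivity)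
  have hTb : Big Y T := big_of_card hε (hY 2) (Filter.Eventually.of_forall hTc)
  -- the solutions
  have hex : ∀ ν A, ∃ s : (Fin (n + 1) → ℤ) × (Fin N → ℕ) × (Fin (n + 1) → Fin N → ℕ), A ∈ T ν →
      Rep (Y ν) (Real.exp ((Y ν : ℝ) ^ (1 / ((ν : ℝ) + 1)))) (M ν) (u ν) s.1 s.2.1 s.2.2 ∧
      Cop s.1 ∧ Adm s.1 ∧ A = parts (R0 ν) s.2.1 s.2.2 ∧ ∀ i j, s.2.2 i j < F ν := by
    intro ν A
    by_cases hA : A ∈ T ν
    · obtain ⟨a, y, e, g1, g2, g3, g4⟩ := hT ν A hA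
      refine ⟨(a, y, nrm y e), fun _ => ⟨g1.nrm, g2, g3, ?_, fun i j => ?_⟩⟩
      · rw [g4]; exact parts_nrm.symm
      · rw [hF]
        exact g1.nrm_lt le_rfl i j
    · exact ⟨(0, 0, 0), fun h => absurd h hA⟩
  choose sol hsol using hex
  obtain ⟨T2, hT2, hT2b, hT2c⟩ := hTb.fiber (fun ν A => (sol ν A).2.2)
    (fun ν => Fintype.piFinset fun _ : Fin (n + 1) => Fintype.piFinset fun _ : Fin N =>
      Finset.range (F ν))
    (Filter.Eventually.of_forall fun ν A hA => mem_exps (hsol ν A hA).2.2.2.2)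
    (((fewF.pow N).pow (n + 1)).mono (Filter.Eventually.of_forall fun ν => by
      rw [card_exps]))
  have hq : ∀ᶠ ν in (Uf : Filter ℕ), ∃ E : Fin (n + 1) → Fin N → ℕ,
      (∀ A ∈ T2 ν, (sol ν A).2.2 = E) ∧ ∀ i j, E i j < F ν := by
    filter_upwards [hT2, hT2c, hT2b.nonempty] with ν h1 h2 h3
    obtain ⟨A, hA⟩ := h3
    exact ⟨(sol ν A).2.2, fun A' hA' => h2 A' hA' A hA, (hsol ν A (h1 hA)).2.2.2.2⟩
  obtain ⟨E, hEq⟩ := hq.choice
  -- the points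
  obtain ⟨Om, hOm⟩ : ∃ Om : ℕ → Finset (Fin N → ℤ), ∀ ν, Om ν =
      (T2 ν).image (fun A => pnt (M ν) (E ν) (sol ν A).2.1) := ⟨_, fun _ => rfl⟩
  have hinv : ∀ ν (t : Fin N → ℤ), ∃ A, t ∈ Om ν →
      (A ∈ T2 ν ∧ pnt (M ν) (E ν) (sol ν A).2.1 = t) := by
    intro ν t
    by_cases ht : t ∈ Om ν
    · rw [hOm] at ht
      obtain ⟨A, hA, he⟩ := Finset.mem_image.1 ht
      exact ⟨A, fun _ => ⟨hA, he⟩⟩
    · exact ⟨0, fun h => absurd h ht⟩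
  choose W hW using hinv
  have hpr : ∀ᶠ ν in (Uf : Filter ℕ), ∀ A ∈ T2 ν,
      Rep (Y ν) (Real.exp ((Y ν : ℝ) ^ (1 / ((ν : ℝ) + 1)))) (M ν) (u ν) (sol ν A).1
        (sol ν A).2.1 (E ν) ∧ Cop (sol ν A).1 ∧ Adm (sol ν A).1 ∧
        A = parts (R0 ν) (sol ν A).2.1 (E ν) := by
    filter_upwards [hT2, hEq] with ν h1 h2 A hA
    obtain ⟨g1, g2, g3, g4, -⟩ := hsol ν A (h1 hA)
    rw [h2.1 A hA] at g1 g4
    exact ⟨g1, g2, g3, g4⟩
  have hparts : ∀ᶠ ν in (Uf : Filter ℕ), ∀ A ∈ T2 ν, ∀ i, (A i : ℤ) =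
      ∏ j, if R0 ν ≤ E ν i j then
        (sh (M ν) (E ν) j + pnt (M ν) (E ν) (sol ν A).2.1 j) ^ E ν i j else 1 := by
    filter_upwards [hpr] with ν h1 A hA i
    have h2 := (h1 A hA).2.2.2
    conv_lhs => rw [h2]
    exact parts_pnt (M ν) (E ν) _ (R0_pos ν) i
  have hinj : ∀ᶠ ν in (Uf : Filter ℕ),
      Set.InjOn (fun A => pnt (M ν) (E ν) (sol ν A).2.1) (T2 ν) := by
    filter_upwards [hparts] with ν h1 A hA A' hA' he
    funext i
    have h2 := h1 A hA i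
    have h3 := h1 A' hA' i
    simp only at he
    rw [he, ← h3] at h2
    exact_mod_cast h2
  have hOmB : Big Y Om := by
    have : Om = fun ν => (T2 ν).image (fun A => pnt (M ν) (E ν) (sol ν A).2.1) := funext hOm
    rw [this]
    exact big_image hT2b _ hinj
  have htm : ∀ᶠ ν in (Uf : Filter ℕ), ∀ t ∈ Om ν,
      tm (E ν) (u ν) (fun j => sh (M ν) (E ν) j + t j) = (sol ν (W ν t)).1 := by
    filter_upwards [hpr] with ν h1 t ht
    obtain ⟨h2, h3⟩ := hW ν t ht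
    funext i
    have h4 := tm_pnt (M ν) (E ν) (sol ν (W ν t)).2.1 (u ν) i
    rw [h3] at h4
    rw [h4, ← (h1 _ h2).1.eq i]
  have hHB : HB Y Om E u (fun ν => sh (M ν) (E ν)) F := by
    have hall : ∀ᶠ ν in (Uf : Filter ℕ), ∀ t ∈ Om ν,
        (∀ j, 0 < t j ∧ |t j| ≤ (Y ν : ℤ)) ∧
        (∀ j, 0 ≤ sh (M ν) (E ν) j ∧ sh (M ν) (E ν) j ≤ 2 ^ F ν ∧
          sh (M ν) (E ν) j + t j ≤ 2 ^ F ν) ∧
        (∀ j l, j ≠ l → IsCoprime (sh (M ν) (E ν) j + t j) (sh (M ν) (E ν) l + t l)) := by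
      filter_upwards [hpr] with ν h1 t ht
      obtain ⟨h2, h3⟩ := hW ν t ht
      have h4 := (h1 _ h2).1.pnt_prop (hE ν) (hY1 ν)
      rw [h3] at h4
      exact h4
    have hne := hOmB.nonempty
    refine ⟨fewF, ?_, ?_, ?_, ?_, ?_, ?_, ?_, ?_⟩
    · filter_upwards [hall] with ν h1 t ht j
      exact ⟨((h1 t ht).1 j).1.ne', ((h1 t ht).1 j).2⟩
    · have h1 : Few Y (fun ν => ((n + 1) * N) * F ν) := (Few.const hY _).mul fewF
      refine h1.mono ?_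
      filter_upwards [hEq] with ν h2
      calc ∑ i, ∑ j, E ν i j ≤ ∑ _i : Fin (n + 1), ∑ _j : Fin N, F ν :=
            Finset.sum_le_sum fun i _ => Finset.sum_le_sum fun j _ => (h2.2 i j).le
        _ = ((n + 1) * N) * F ν := by simp [mul_assoc]
    · filter_upwards [hpr, hne] with ν h1 h2 i
      obtain ⟨t, ht⟩ := h2
      have h3 := (h1 _ (hW ν t ht).1).1.u_le i
      refine ⟨h3.1, ?_⟩
      have h4 := h3.2.trans (hE ν)
      exact_mod_cast h4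
    · filter_upwards [hall, hne] with ν h1 h2 j
      obtain ⟨t, ht⟩ := h2
      exact ⟨((h1 t ht).2.1 j).1, ((h1 t ht).2.1 j).2.1⟩
    · filter_upwards [hall] with ν h1 t ht j
      exact ((h1 t ht).2.1 j).2.2
    · filter_upwards [hall] with ν h1 t ht j
      exact ((h1 t ht).1 j).1
    · filter_upwards [hall] with ν h1 t ht
      exact (h1 t ht).2.2
    · filter_upwards [hpr, htm] with ν h1 h2 t ht d hd
      rw [h2 t ht] at hd
      exact (h1 _ (hW ν t ht).1).2.1 d hd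
  obtain ⟨Om3, hO3, hB3, h3⟩ := upI hn hY hYv hOmB hHB
    (by
      filter_upwards [hpr, htm] with ν h1 h2 t ht
      rw [h2 t ht]
      exact (h1 _ (hW ν t ht).1).2.2.1)
  obtain ⟨ν, h4, h5, h6, h7⟩ := (h3.and (hB3.one_lt.and (hO3.and hparts))).exists
  obtain ⟨t, ht, t', ht', hne⟩ := Finset.one_lt_card.1 h5
  apply hne
  obtain ⟨k1, k2⟩ := hW ν t (h6 ht)
  obtain ⟨k3, k4⟩ := hW ν t' (h6 ht')
  have h8 : W ν t = W ν t' := by
    funext i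
    have e1 := h7 _ k1 i
    have e2 := h7 _ k3 i
    rw [k2] at e1
    rw [k4] at e2
    have e3 : (W ν t i : ℤ) = W ν t' i := by
      rw [e1, e2]
      refine Finset.prod_congr rfl fun j _ => ?_
      split_ifs with h9
      · rw [h4 j ⟨i, (lt_R0 ν).trans h9⟩ t ht t' ht']
      · rfl
    exact_mod_cast e3
  rw [← k2, ← k4, h8]

end Pool.Agent.H8AB
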