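import Pool.Agent.H8AB.FinI

/-!
# Few vectors of large parts and few powers
-/

set_option autoImplicit false

namespace Pool.Agent.H8AB

open Filter Pool.Agent.Y902.GN Pool.Agent.N741.HB Pool.Agent.H8FC

/-- the exponent of the power may be taken small -/
theorem exists_zr {R r : ℕ} {z : ℤ} (hR : 1 ≤ R) (hr : R ≤ r) (hz : z ^ r ≠ 0) :
    ∃ (z' : ℤ) (r' : ℕ), z' ^ r' = z ^ r ∧ R ≤ r' ∧ (r' ≤ R + 1 ∨ (2 : ℝ) ^ r' ≤ |((z ^ r : ℤ) : ℝ)|) := by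
  have hz0 : z ≠ 0 := by
    rintro rfl
    exact hz (zero_pow (by omega))
  by_cases h1 : z.natAbs = 1
  · have h2 : z ^ r = 1 ∨ z ^ r = -1 := by
      apply Int.isUnit_iff.1
      exact (Int.isUnit_iff_natAbs_eq.2 h1).pow r
    rcases h2 with h2 | h2
    · exact ⟨1, R, by rw [h2, one_pow], le_rfl, Or.inl (by omega)⟩
    · rcases Nat.even_or_odd R with h3 | h3
      · refine ⟨-1, R + 1, ?_, by omega, Or.inl le_rfl⟩
        rw [h2]
        exact (Even.add_one h3).neg_one_pow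
      · refine ⟨-1, R, ?_, le_rfl, Or.inl (by omega)⟩
        rw [h2]
        exact h3.neg_one_pow
  · refine ⟨z, r, rfl, hr, Or.inr ?_⟩
    have h2 : 2 ≤ z.natAbs := by
      have := Int.natAbs_pos.2 hz0
      omega
    have h3 : (2 : ℤ) ≤ |z| := by rw [Int.abs_eq_natAbs]; exact_mod_cast h2
    have h4 : (2 : ℝ) ≤ |(z : ℝ)| := by exact_mod_cast h3
    push_cast
    rw [abs_pow]
    exact pow_le_pow_left₀ (by norm_num) h4 _

/-- **Few vectors of large parts, and few powers.** -/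
theorem finII (n N : ℕ) (ε : ℝ) (hε : 0 < ε) : ∃ (R : ℕ) (δ : ℝ), 0 < δ ∧
    ∀ Y : ℕ, 1 ≤ Y → ∀ (M : Fin N → ℕ) (u : Fin n → ℤ) (v : ℤ)
      (T : Finset ((Fin n → ℕ) × ℤ)),
      (∀ p ∈ T, ∃ (a : Fin n → ℤ) (y : Fin N → ℕ) (e : Fin n → Fin N → ℕ) (z : ℤ) (r : ℕ),
        Rep Y (Real.exp ((Y : ℝ) ^ δ)) M u a y e ∧ Cop a ∧ Eqn a v z r ∧ R ≤ r ∧
        v * z ^ r ≠ 0 ∧ |((v * z ^ r : ℤ) : ℝ)| ≤ Real.exp ((Y : ℝ) ^ δ) ∧
        p = (parts R y e, |z ^ r|)) →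
      (T.card : ℝ) ≤ (Y : ℝ) ^ ε := by
  classical
  by_contra hcon
  push Not at hcon
  have h := fun ν : ℕ => hcon (R0 ν) (1 / ((ν : ℝ) + 1)) (by positivity)
  choose Y hY1 M u v T hT hTc using h
  have hYr : ∀ ν, (1 : ℝ) ≤ (Y ν : ℝ) ^ ε := fun ν =>
    Real.one_le_rpow (by exact_mod_cast hY1 ν) hε.le
  -- sizes of the power
  have hzle : ∀ (ν : ℕ) (z : ℤ) (r : ℕ), v ν * z ^ r ≠ 0 →
      |((v ν * z ^ r : ℤ) : ℝ)| ≤ Real.exp ((Y ν : ℝ) ^ (1 / ((ν : ℝ) + 1))) →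
      |((z ^ r : ℤ) : ℝ)| ≤ Real.exp ((Y ν : ℝ) ^ (1 / ((ν : ℝ) + 1))) ∧
      |(v ν : ℝ)| ≤ Real.exp ((Y ν : ℝ) ^ (1 / ((ν : ℝ) + 1))) := by
    intro ν z r h1 h2
    have h3 : (1 : ℤ) ≤ |v ν| := Int.one_le_abs (left_ne_zero_of_mul h1)
    have h4 : (1 : ℤ) ≤ |z ^ r| := Int.one_le_abs (right_ne_zero_of_mul h1)
    have h5 : (|z ^ r| : ℤ) ≤ |v ν * z ^ r| := by
      rw [abs_mul]; exact le_mul_of_one_le_left (abs_nonneg _) h3
    have h6 : (|v ν| : ℤ) ≤ |v ν * z ^ r| := by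
      rw [abs_mul]; exact le_mul_of_one_le_right (abs_nonneg _) h4
    have h5' : |((z ^ r : ℤ) : ℝ)| ≤ |((v ν * z ^ r : ℤ) : ℝ)| := by exact_mod_cast h5
    have h6' : |((v ν : ℤ) : ℝ)| ≤ |((v ν * z ^ r : ℤ) : ℝ)| := by exact_mod_cast h6
    exact ⟨h5'.trans h2, h6'.trans h2⟩
  have hYb : ∀ ν, Y0 ν < Y ν := by
    intro ν
    by_contra hc
    push Not at hc
    have h1 : T ν ⊆ {(1, 1)} := by
      intro p hp
      obtain ⟨a, y, e, z, r, g1, -, -, g3, g4, g5, g2⟩ := hT ν p hp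
      rw [Finset.mem_singleton, g2, g1.parts_one (exp_lt_R0 hc)]
      obtain ⟨z', r', k1, k2, k3⟩ := exists_zr (R0_pos ν) g3 (right_ne_zero_of_mul g4)
      congr 1
      have h5 := (hzle ν z r g4 g5).1
      by_contra hne
      have h6 : (2 : ℝ) ^ R0 ν ≤ |((z ^ r : ℤ) : ℝ)| := by
        have hz2 : (2 : ℤ) ≤ |z| := by
          by_contra hz2
          have hz0 : z ≠ 0 := by
            rintro rfl
            have := R0_pos ν
            exact right_ne_zero_of_mul g4 (zero_pow (by omega))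
          have hz1 : |z| = 1 := by
            have := Int.one_le_abs hz0
            omega
          rw [abs_pow, hz1, one_pow] at hne
          exact hne rfl
        have h7 : (2 : ℝ) ≤ |(z : ℝ)| := by exact_mod_cast hz2
        push_cast
        rw [abs_pow]
        calc (2 : ℝ) ^ R0 ν ≤ 2 ^ r := pow_le_pow_right₀ (by norm_num) g3
          _ ≤ |(z : ℝ)| ^ r := pow_le_pow_left₀ (by norm_num) h7 _
      have h8 := exp_lt_R0 hc
      linarith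
    have h2 := Finset.card_le_card h1
    rw [Finset.card_singleton] at h2
    have h3 : ((T ν).card : ℝ) ≤ 1 := by exact_mod_cast h2
    linarith [hTc ν, hYr ν]
  have hY := Y_large hYb
  have hYv := Y_few hYb
  obtain ⟨F, hF⟩ : ∃ F : ℕ → ℕ, ∀ ν, F ν = ⌊((2 : ℕ) : ℝ) * (Y ν : ℝ) ^ (1 / ((ν : ℝ) + 1))⌋₊ + 1 :=
    ⟨_, fun _ => rfl⟩
  have fewF : Few Y F := by
    have : F = fun ν => ⌊((2 : ℕ) : ℝ) * (Y ν : ℝ) ^ (1 / ((ν : ℝ) + 1))⌋₊ + 1 := funext hF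
    rw [this]
    exact few_rpow hY 2
  have hE : ∀ ν, Real.exp ((Y ν : ℝ) ^ (1 / ((ν : ℝ) + 1))) ≤ 2 ^ F ν := fun ν => by
    rw [hF]
    exact exp_le_two_pow (by positivity)
  have hTb : Big Y T := big_of_card hε (hY 2) (Filter.Eventually.of_forall hTc)
  -- the solutions
  have hex : ∀ ν p, ∃ s : (Fin n → ℤ) × (Fin N → ℕ) × (Fin n → Fin N → ℕ) × ℤ × ℕ, p ∈ T ν →
      Rep (Y ν) (Real.exp ((Y ν : ℝ) ^ (1 / ((ν : ℝ) + 1)))) (M ν) (u ν) s.1 s.2.1 s.2.2.1 ∧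
      Cop s.1 ∧ Eqn s.1 (v ν) s.2.2.2.1 s.2.2.2.2 ∧ R0 ν ≤ s.2.2.2.2 ∧
      |s.2.2.2.1| ≤ 2 ^ F ν ∧ v ν ≠ 0 ∧ |v ν| ≤ 2 ^ F ν ∧
      p = (parts (R0 ν) s.2.1 s.2.2.1, |s.2.2.2.1 ^ s.2.2.2.2|) ∧
      (∀ i j, s.2.2.1 i j < F ν) ∧ s.2.2.2.2 < F ν + R0 ν + 2 := by
    intro ν p
    by_cases hp : p ∈ T ν
    · obtain ⟨a, y, e, z, r, g1, g2, g3, g4, g5, g6, g7⟩ := hT ν p hp
      obtain ⟨z', r', k1, k2, k3⟩ := exists_zr (R0_pos ν) g4 (right_ne_zero_of_mul g5)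
      obtain ⟨l1, l2⟩ := hzle ν z r g5 g6
      refine ⟨(a, y, nrm y e, z', r'), fun _ => ⟨g1.nrm, g2, ?_, k2, ?_, left_ne_zero_of_mul g5,
        ?_, ?_, fun i j => ?_, ?_⟩⟩
      · refine ⟨?_, g3.2⟩
        rw [g3.1]
        show v ν * z ^ r = v ν * z' ^ r'
        rw [k1]
      · show |z'| ≤ 2 ^ F ν
        have h1 : |z'| ≤ |z'| ^ r' := by
          have hz' : z' ≠ 0 := by
            rintro rfl
            have := R0_pos ν
            rw [zero_pow (by omega)] at k1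
            exact right_ne_zero_of_mul g5 k1.symm
          have := R0_pos ν
          exact le_self_pow₀ (Int.one_le_abs hz') (by omega)
        rw [← abs_pow, k1] at h1
        have h2 : (|z ^ r| : ℤ) ≤ 2 ^ F ν := by
          have h3 := l1.trans (hE ν)
          exact_mod_cast h3
        exact h1.trans h2
      · have h3 := l2.trans (hE ν)
        exact_mod_cast h3
      · rw [g7]
        show (parts (R0 ν) y e, |z ^ r|) = (parts (R0 ν) y (nrm y e), |z' ^ r'|)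
        rw [parts_nrm, k1]
      · rw [hF]
        exact g1.nrm_lt le_rfl i j
      · show r' < F ν + R0 ν + 2
        rcases k3 with k3 | k3
        · omega
        · have h4 := exp_bd k3 l1
          rw [← hF] at h4
          omega
    · exact ⟨(0, 0, 0, 0, 0), fun h => absurd h hp⟩
  choose sol hsol using hex
  obtain ⟨T2, hT2, hT2b, hT2c⟩ := hTb.fiber (fun ν p => ((sol ν p).2.2.1, (sol ν p).2.2.2.2))
    (fun ν => (Fintype.piFinset fun _ : Fin n => Fintype.piFinset fun _ : Fin N =>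
      Finset.range (F ν)) ×ˢ Finset.range (F ν + R0 ν + 2))
    (Filter.Eventually.of_forall fun ν p hp => Finset.mem_product.2
      ⟨mem_exps (hsol ν p hp).2.2.2.2.2.2.2.2.1, Finset.mem_range.2 (hsol ν p hp).2.2.2.2.2.2.2.2.2⟩)
    (by
      have h1 : Few Y (fun ν => ((F ν) ^ N) ^ n * (F ν + R0 ν + 2)) :=
        ((fewF.pow N).pow n).mul ((fewF.add hY (R0_few hYb)).add hY (Few.const hY 2))
      refine h1.mono (Filter.Eventually.of_forall fun ν => ?_)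
      rw [Finset.card_product, card_exps, Finset.card_range])
  have hq : ∀ᶠ ν in (Uf : Filter ℕ), ∃ E : (Fin n → Fin N → ℕ) × ℕ,
      (∀ p ∈ T2 ν, (sol ν p).2.2.1 = E.1 ∧ (sol ν p).2.2.2.2 = E.2) ∧ (∀ i j, E.1 i j < F ν) ∧
      R0 ν ≤ E.2 ∧ E.2 < F ν + R0 ν + 2 ∧ v ν ≠ 0 ∧ |v ν| ≤ 2 ^ F ν := by
    filter_upwards [hT2, hT2c, hT2b.nonempty] with ν h1 h2 h3
    obtain ⟨p, hp⟩ := h3
    have h4 := hsol ν p (h1 hp)
    refine ⟨((sol ν p).2.2.1, (sol ν p).2.2.2.2), fun p' hp' => ?_, h4.2.2.2.2.2.2.2.2.1,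
      h4.2.2.2.1, h4.2.2.2.2.2.2.2.2.2, h4.2.2.2.2.2.1, h4.2.2.2.2.2.2.1⟩
    have h5 := h2 p' hp' p hp
    simp only [Prod.mk.injEq] at h5
    exact h5
  obtain ⟨E, hEq⟩ := hq.choice
  -- the points
  obtain ⟨Om, hOm⟩ : ∃ Om : ℕ → Finset (Fin N → ℤ), ∀ ν, Om ν =
      (T2 ν).image (fun p => pnt (M ν) (E ν).1 (sol ν p).2.1) := ⟨_, fun _ => rfl⟩
  have hinv : ∀ ν (t : Fin N → ℤ), ∃ p, t ∈ Om ν →
      (p ∈ T2 ν ∧ pnt (M ν) (E ν).1 (sol ν p).2.1 = t) := by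
    intro ν t
    by_cases ht : t ∈ Om ν
    · rw [hOm] at ht
      obtain ⟨p, hp, he⟩ := Finset.mem_image.1 ht
      exact ⟨p, fun _ => ⟨hp, he⟩⟩
    · exact ⟨0, fun h => absurd h ht⟩
  choose W hW using hinv
  have hpr : ∀ᶠ ν in (Uf : Filter ℕ), ∀ p ∈ T2 ν,
      Rep (Y ν) (Real.exp ((Y ν : ℝ) ^ (1 / ((ν : ℝ) + 1)))) (M ν) (u ν) (sol ν p).1
        (sol ν p).2.1 (E ν).1 ∧ Cop (sol ν p).1 ∧
        Eqn (sol ν p).1 (v ν) (sol ν p).2.2.2.1 (E ν).2 ∧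
        |(sol ν p).2.2.2.1| ≤ 2 ^ F ν ∧
        p = (parts (R0 ν) (sol ν p).2.1 (E ν).1, |(sol ν p).2.2.2.1 ^ (E ν).2|) := by
    filter_upwards [hT2, hEq] with ν h1 h2 p hp
    obtain ⟨g1, g2, g3, -, g5, -, -, g4, -, -⟩ := hsol ν p (h1 hp)
    obtain ⟨k1, k2⟩ := h2.1 p hp
    rw [k1] at g1 g4
    rw [k2] at g3 g4
    exact ⟨g1, g2, g3, g5, g4⟩
  have htmp : ∀ᶠ ν in (Uf : Filter ℕ), ∀ p ∈ T2 ν, tm (E ν).1 (u ν)
      (fun j => sh (M ν) (E ν).1 j + pnt (M ν) (E ν).1 (sol ν p).2.1 j) = (sol ν p).1 := by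
    filter_upwards [hpr] with ν h1 p hp
    funext i
    rw [tm_pnt, ← (h1 _ hp).1.eq i]
  have hparts : ∀ᶠ ν in (Uf : Filter ℕ), ∀ p ∈ T2 ν, ∀ i, (p.1 i : ℤ) =
      ∏ j, if R0 ν ≤ (E ν).1 i j then
        (sh (M ν) (E ν).1 j + pnt (M ν) (E ν).1 (sol ν p).2.1 j) ^ (E ν).1 i j else 1 := by
    filter_upwards [hpr] with ν h1 p hp i
    have h2 := congrArg Prod.fst (h1 p hp).2.2.2.2
    simp only at h2
    conv_lhs => rw [h2]
    exact parts_pnt (M ν) (E ν).1 _ (R0_pos ν) i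
  have hpow : ∀ᶠ ν in (Uf : Filter ℕ), ∀ p ∈ T2 ν, p.2 = |(sol ν p).2.2.2.1 ^ (E ν).2| := by
    filter_upwards [hpr] with ν h1 p hp
    exact congrArg Prod.snd (h1 p hp).2.2.2.2
  have hinj : ∀ᶠ ν in (Uf : Filter ℕ),
      Set.InjOn (fun p => pnt (M ν) (E ν).1 (sol ν p).2.1) (T2 ν) := by
    filter_upwards [hparts, hpow, htmp, hpr, hEq] with ν h1 h5 h6 h7 h8 p hp p' hp' he
    simp only at he
    refine Prod.ext ?_ ?_
    · funext i
      have h2 := h1 p hp i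
      have h3 := h1 p' hp' i
      rw [he, ← h3] at h2
      exact_mod_cast h2
    · rw [h5 p hp, h5 p' hp']
      have k1 := h6 p hp
      have k2 := h6 p' hp'
      rw [he, k2] at k1
      have k3 := (h7 p hp).2.2.1.1
      have k4 := (h7 p' hp').2.2.1.1
      rw [k1] at k4
      rw [k3] at k4
      rw [mul_left_cancel₀ h8.2.2.2.2.1 k4]
  have hOmB : Big Y Om := by
    have : Om = fun ν => (T2 ν).image (fun p => pnt (M ν) (E ν).1 (sol ν p).2.1) := funext hOm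
    rw [this]
    exact big_image hT2b _ hinj
  have htm : ∀ᶠ ν in (Uf : Filter ℕ), ∀ t ∈ Om ν,
      tm (E ν).1 (u ν) (fun j => sh (M ν) (E ν).1 j + t j) = (sol ν (W ν t)).1 := by
    filter_upwards [htmp] with ν h1 t ht
    obtain ⟨h2, h3⟩ := hW ν t ht
    have h4 := h1 _ h2
    rw [h3] at h4
    exact h4
  have hHB : HB Y Om (fun ν => (E ν).1) u (fun ν => sh (M ν) (E ν).1) F := by
    have hall : ∀ᶠ ν in (Uf : Filter ℕ), ∀ t ∈ Om ν,
        (∀ j, 0 < t j ∧ |t j| ≤ (Y ν : ℤ)) ∧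
        (∀ j, 0 ≤ sh (M ν) (E ν).1 j ∧ sh (M ν) (E ν).1 j ≤ 2 ^ F ν ∧
          sh (M ν) (E ν).1 j + t j ≤ 2 ^ F ν) ∧
        (∀ j l, j ≠ l → IsCoprime (sh (M ν) (E ν).1 j + t j) (sh (M ν) (E ν).1 l + t l)) := by
      filter_upwards [hpr] with ν h1 t ht
      obtain ⟨h2, h3⟩ := hW ν t ht
      have h4 := (h1 _ h2).1.pnt_prop (hE ν) (hY1 ν)
      rw [h3] at h4
      exact h4
    have hne := hOmB.nonempty
    refine ⟨fewF, ?_, ?_, ?_, ?_, ?_, ?_, ?_, ?_⟩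
    · filter_upwards [hall] with ν h1 t ht j
      exact ⟨((h1 t ht).1 j).1.ne', ((h1 t ht).1 j).2⟩
    · have h1 : Few Y (fun ν => (n * N) * F ν) := (Few.const hY _).mul fewF
      refine h1.mono ?_
      filter_upwards [hEq] with ν h2
      calc ∑ i, ∑ j, (E ν).1 i j ≤ ∑ _i : Fin n, ∑ _j : Fin N, F ν :=
            Finset.sum_le_sum fun i _ => Finset.sum_le_sum fun j _ => (h2.2.1 i j).le
        _ = (n * N) * F ν := by simp [mul_assoc]
    · filter_upwards [hpr, hne] with ν h1 h2 i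
      obtain ⟨t, ht⟩ := h2
      have h3 := (h1 _ (hW ν t ht).1).1.u_le i
      refine ⟨h3.1, ?_⟩
      have h4 := h3.2.trans (hE ν)
      exact_mod_cast h4
    · filter_upwards [hall, hne] with ν h1 h2 j
      obtain ⟨t, ht⟩ := h2
      exact ⟨((h1 t ht).2.1 j).1, ((h1 t ht).2.1 j).2.1⟩
    · filter_upwards [hall] with ν h1 t ht j
      exact ((h1 t ht).2.1 j).2.2
    · filter_upwards [hall] with ν h1 t ht j
      exact ((h1 t ht).1 j).1
    · filter_upwards [hall] with ν h1 t ht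
      exact (h1 t ht).2.2
    · filter_upwards [hpr, htm] with ν h1 h2 t ht d hd
      rw [h2 t ht] at hd
      exact (h1 _ (hW ν t ht).1).2.1 d hd
  obtain ⟨Om3, hO3, hB3, h3, h3'⟩ := upII hY hOmB hHB v (fun ν => (E ν).2)
    (fun ν t => (sol ν (W ν t)).2.2.2.1)
    (fun m => by
      filter_upwards [hEq, ev_ge m] with ν h1 h2
      exact (h2.trans (lt_R0 ν)).trans h1.2.2.1)
    (by
      have h1 : Few Y (fun ν => F ν + R0 ν + 2) :=
        (fewF.add hY (R0_few hYb)).add hY (Few.const hY 2)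
      refine h1.mono ?_
      filter_upwards [hEq] with ν h2
      exact h2.2.2.2.1.le)
    (by
      filter_upwards [hEq] with ν h2
      exact ⟨h2.2.2.2.2.1, h2.2.2.2.2.2⟩)
    (by
      filter_upwards [hpr, htm] with ν h1 h2 t ht
      rw [h2 t ht]
      exact ⟨(h1 _ (hW ν t ht).1).2.2.2.1, (h1 _ (hW ν t ht).1).2.2.1⟩)
  obtain ⟨ν, h4, h4', h5, h6, h7, h8⟩ := (h3.and (h3'.and (hB3.one_lt.and (hO3.and
    (hparts.and hpow))))).exists
  obtain ⟨t, ht, t', ht', hne⟩ := Finset.one_lt_card.1 h5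
  apply hne
  obtain ⟨k1, k2⟩ := hW ν t (h6 ht)
  obtain ⟨k3, k4⟩ := hW ν t' (h6 ht')
  have h9 : W ν t = W ν t' := by
    refine Prod.ext ?_ ?_
    · funext i
      have e1 := h7 _ k1 i
      have e2 := h7 _ k3 i
      rw [k2] at e1
      rw [k4] at e2
      have e3 : ((W ν t).1 i : ℤ) = (W ν t').1 i := by
        rw [e1, e2]
        refine Finset.prod_congr rfl fun j _ => ?_
        split_ifs with h9
        · rw [h4 j ⟨i, (lt_R0 ν).trans h9⟩ t ht t' ht']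
        · rfl
      exact_mod_cast e3
    · rw [h8 _ k1, h8 _ k3]
      rw [h4' t ht t' ht']
  rw [← k2, ← k4, h9]

end Pool.Agent.H8AB
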