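import Pool.Agent.H8AB.All

/-!
# Sums of products of powers which are powers of arbitrary integers
-/

set_option autoImplicit false

namespace Pool.Agent.H8AB

open Filter Pool.Agent.Y902.GN Pool.Agent.N741.HB Pool.Agent.H8FC

variable {Y : ℕ → ℕ} {N n : ℕ} {Om : ℕ → Finset (Fin N → ℤ)} {e : ℕ → Fin n → Fin N → ℕ}
  {u : ℕ → Fin n → ℤ} {Sh : ℕ → Fin N → ℤ} {ws : ℕ → ℕ}

/-- the sum is `v z ^ r`, no partial sum vanishes -/
def Eqn (a : Fin n → ℤ) (v z : ℤ) (r : ℕ) : Prop :=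
  ∑ i, a i = v * z ^ r ∧ ∀ K : Finset (Fin n), K.Nonempty → ∑ i ∈ K, a i ≠ 0

theorem sumII {e : Fin n → Fin N → ℕ} {u : Fin n → ℤ} {y : Fin N → ℤ} (c : ℤ)
    (J : Finset (Fin n)) :
    ∑ i ∈ J, (u i * c) * ∏ j, y j ^ e i j = c * ∑ i ∈ J, tm e u y i := by
  rw [Finset.mul_sum]
  refine Finset.sum_congr rfl fun i _ => ?_
  unfold tm
  ring

/-- **All bases with infinite exponents, and the power, are constant.** -/
theorem upII (hY : ∀ m : ℕ, ∀ᶠ ν in (Uf : Filter ℕ), m ≤ Y ν) (hbig : Big Y Om)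
    (h : HB Y Om e u Sh ws) (v : ℕ → ℤ) (r : ℕ → ℕ) (z : ℕ → (Fin N → ℤ) → ℤ)
    (hr : ∀ m : ℕ, ∀ᶠ ν in (Uf : Filter ℕ), m ≤ r ν) (hrF : Few Y r)
    (hv : ∀ᶠ ν in (Uf : Filter ℕ), v ν ≠ 0 ∧ |v ν| ≤ 2 ^ ws ν)
    (heq : ∀ᶠ ν in (Uf : Filter ℕ), ∀ t ∈ Om ν, |z ν t| ≤ 2 ^ ws ν ∧
      Eqn (tm (e ν) (u ν) (fun j => Sh ν j + t j)) (v ν) (z ν t) (r ν)) :
    ∃ Om₃ : ℕ → Finset (Fin N → ℤ), (∀ᶠ ν in (Uf : Filter ℕ), Om₃ ν ⊆ Om ν) ∧ Big Y Om₃ ∧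
      (∀ᶠ ν in (Uf : Filter ℕ), ∀ j₀, (∃ i, ν ≤ e ν i j₀) →
        ∀ t ∈ Om₃ ν, ∀ t' ∈ Om₃ ν, t j₀ = t' j₀) ∧
      ∀ᶠ ν in (Uf : Filter ℕ), ∀ t ∈ Om₃ ν, ∀ t' ∈ Om₃ ν, z ν t ^ r ν = z ν t' ^ r ν := by
  classical
  have hn : 0 < n := by
    rcases Nat.eq_zero_or_pos n with h0 | h0
    · exfalso
      subst h0
      obtain ⟨ν, g1, g2⟩ := (hbig.nonempty.and h.hgcd).exists
      obtain ⟨t, ht⟩ := g1
      have h1 := g2 t ht 0 fun i => i.elim0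
      exact not_isUnit_zero h1
    · exact h0
  have hE : Few Y (fun ν => ∑ i, ∑ j, e ν i j) := h.he
  have hpos : ∀ᶠ ν in (Uf : Filter ℕ), ∀ t ∈ Om ν, ∀ j, 0 < Sh ν j + t j := by
    filter_upwards [h.hSh, h.htpos] with ν h1 h2 t ht j
    have := (h1 j).1
    have := h2 t ht j
    omega
  have hvz : ∀ᶠ ν in (Uf : Filter ℕ), ∀ x : ℤ, (v ν) ^ (r ν - 1) * (v ν * x ^ r ν) =
      (v ν * x) ^ r ν := by
    filter_upwards [hr 1] with ν h1 x
    rw [mul_pow, ← mul_assoc, ← pow_succ]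
    congr 2
    omega
  have hwr : Few Y (fun ν => ws ν + ws ν * r ν) := h.hws.add hY (h.hws.mul hrF)
  have hub : ∀ᶠ ν in (Uf : Filter ℕ), ∀ i, u ν i * (v ν) ^ (r ν - 1) ≠ 0 ∧
      |u ν i * (v ν) ^ (r ν - 1)| ≤ 2 ^ (ws ν + ws ν * r ν) := by
    filter_upwards [h.hu, hv] with ν h1 h2 i
    refine ⟨mul_ne_zero (h1 _).1 (pow_ne_zero _ h2.1), ?_⟩
    rw [abs_mul, abs_pow, pow_add]
    refine mul_le_mul (h1 _).2 ?_ (by positivity) (by positivity)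
    calc |v ν| ^ (r ν - 1) ≤ (2 ^ ws ν) ^ (r ν - 1) := pow_le_pow_left₀ (abs_nonneg _) h2.2 _
      _ ≤ (2 ^ ws ν) ^ (r ν) :=
          pow_le_pow_right₀ (one_le_pow₀ (by norm_num)) (Nat.sub_le _ _)
      _ = 2 ^ (ws ν * r ν) := by rw [pow_mul]
  -- the system of terms
  obtain ⟨S, hSe, hSu⟩ : ∃ S : TD Y N n, (∀ ν, S.e ν = e ν) ∧
      (∀ ν, S.u ν = fun i => u ν i * (v ν) ^ (r ν - 1)) :=
    ⟨⟨e, fun ν => fun i => u ν i * (v ν) ^ (r ν - 1), fun ν => ws ν + ws ν * r ν, h.he, hub,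
      hwr⟩, fun _ => rfl, fun _ => rfl⟩
  have hww : Few Y (fun ν => ws ν + ws ν) := h.hws.add hY h.hws
  -- one base
  have one : ∀ j₀ : Fin N, (∃ i, ∀ B : ℕ, ∀ᶠ ν in (Uf : Filter ℕ), B ≤ e ν i j₀) →
      ∀ A' : ℕ → Finset (Fin N → ℤ), (∀ᶠ ν in (Uf : Filter ℕ), A' ν ⊆ Om ν) → Big Y A' →
      ∃ Om₃ : ℕ → Finset (Fin N → ℤ), (∀ᶠ ν in (Uf : Filter ℕ), Om₃ ν ⊆ A' ν) ∧ Big Y Om₃ ∧
        ∀ᶠ ν in (Uf : Filter ℕ), ∀ t ∈ Om₃ ν, ∀ t' ∈ Om₃ ν, t j₀ = t' j₀ := by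
    rintro j₀ ⟨i, hi⟩ A' hA' hb'
    have h' := h.mono hA'
    rcases h'.split hY hb' j₀ with h1 | ⟨i', hi'⟩
    · exact h1
    refine step hY hb' h'.bdd S Sh h'.hws h'.hSh h'.htpos h'.hcop ?_ r (fun ν => ws ν + ws ν)
      (fun ν t => v ν * z ν t) hr hrF hww ?_ i i' j₀ ?_
    · filter_upwards [heq, hv, hA'] with ν g1 g2 g3 t ht J hJ
      rw [hSe, hSu]
      simp only
      rw [sumII]
      exact mul_ne_zero (pow_ne_zero _ g2.1) ((g1 t (g3 ht)).2.2 J hJ)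
    · filter_upwards [heq, hv, hA', hvz] with ν g1 g2 g3 g4 t ht
      refine ⟨?_, ?_⟩
      · rw [abs_mul, pow_add]
        exact mul_le_mul g2.2 (g1 t (g3 ht)).1 (abs_nonneg _) (by positivity)
      · rw [hSe, hSu]
        simp only
        rw [sumII, (g1 t (g3 ht)).2.1, g4]
    · intro B
      filter_upwards [hi B, hi'] with ν g1 g2
      rw [hSe, g2]
      omega
  obtain ⟨Om2, hO2, hB2, h2⟩ := hbig.const_all
    (Finset.univ.filter fun j₀ => ∃ i, ∀ B : ℕ, ∀ᶠ ν in (Uf : Filter ℕ), B ≤ e ν i j₀)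
    (fun j₀ ν t => t j₀) fun j₀ hj₀ A' hA' hb' => one j₀ (Finset.mem_filter.1 hj₀).2 A' hA' hb'
  -- the second system
  obtain ⟨I, hI⟩ : ∃ I : Finset (Fin N),
    I = Finset.univ.filter fun j₀ => ∃ i, ∀ B : ℕ, ∀ᶠ ν in (Uf : Filter ℕ), B ≤ e ν i j₀ := ⟨_, rfl⟩
  rw [← hI] at h2
  have h2' : ∀ᶠ ν in (Uf : Filter ℕ), ∀ j ∈ I, ∀ t ∈ Om2 ν, ∀ t' ∈ Om2 ν, t j = t' j := by
    have h3 : ∀ j : Fin N, ∀ᶠ ν in (Uf : Filter ℕ), j ∈ I → ∀ t ∈ Om2 ν, ∀ t' ∈ Om2 ν,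
        t j = t' j := by
      intro j
      by_cases hj : j ∈ I
      · filter_upwards [h2 j hj] with ν g1 _
        exact g1
      · exact Filter.Eventually.of_forall fun ν hcon => absurd hcon hj
    filter_upwards [Filter.eventually_all.2 h3] with ν g1 j
    exact g1 j
  have hnotI : ∀ j, j ∉ I → ∃ B : ℕ, ∀ᶠ ν in (Uf : Filter ℕ), ∀ i, e ν i j ≤ B := by
    intro j hj
    have h3 : ∀ i, ∃ B : ℕ, ∀ᶠ ν in (Uf : Filter ℕ), e ν i j ≤ B := by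
      intro i
      by_contra hcon
      push Not at hcon
      apply hj
      rw [hI, Finset.mem_filter]
      refine ⟨Finset.mem_univ _, i, fun B => ?_⟩
      filter_upwards [hcon B] with ν g1
      omega
    choose B hB using h3
    refine ⟨∑ i, B i, ?_⟩
    filter_upwards [Filter.eventually_all.2 hB] with ν g1 i
    exact (g1 i).trans (Finset.single_le_sum (f := B) (fun _ _ => Nat.zero_le _)
      (Finset.mem_univ i))
  obtain ⟨τ, hτ⟩ := hB2.nonempty.choice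
  obtain ⟨S', hSe', hSu'⟩ : ∃ S' : TD Y N n,
      (∀ ν, S'.e ν = fun i j => if j ∈ I then 0 else e ν i j) ∧
      (∀ ν, S'.u ν = fun i => if ∀ j, 0 < Sh ν j + τ ν j ∧ Sh ν j + τ ν j ≤ 2 ^ ws ν then
        (u ν i * (v ν) ^ (r ν - 1)) * ∏ j, (Sh ν j + τ ν j) ^ (if j ∈ I then e ν i j else 0)
        else 1) := by
    refine ⟨⟨fun ν => fun i j => if j ∈ I then 0 else e ν i j,
      fun ν => fun i => if ∀ j, 0 < Sh ν j + τ ν j ∧ Sh ν j + τ ν j ≤ 2 ^ ws ν then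
        (u ν i * (v ν) ^ (r ν - 1)) * ∏ j, (Sh ν j + τ ν j) ^ (if j ∈ I then e ν i j else 0)
        else 1,
      fun ν => (ws ν + ws ν * r ν) + ws ν * (∑ i, ∑ j, e ν i j), ?_, ?_, ?_⟩,
      fun _ => rfl, fun _ => rfl⟩
    · refine hE.mono (Filter.Eventually.of_forall fun ν => ?_)
      refine Finset.sum_le_sum fun i _ => Finset.sum_le_sum fun j _ => ?_
      split_ifs
      · exact Nat.zero_le _
      · exact le_rfl
    · filter_upwards [hub] with ν h1 i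
      split_ifs with h3
      · refine ⟨mul_ne_zero (h1 i).1 (Finset.prod_ne_zero_iff.2 fun j _ =>
          pow_ne_zero _ (h3 j).1.ne'), ?_⟩
        rw [abs_mul, pow_add]
        refine mul_le_mul (h1 i).2 ?_ (abs_nonneg _) (by positivity)
        refine abs_prod_le _ _ _ _ h3 ?_
        calc ∑ j, (if j ∈ I then e ν i j else 0) ≤ ∑ j, e ν i j :=
              Finset.sum_le_sum fun j _ => by split_ifs <;> omega
          _ ≤ ∑ i, ∑ j, e ν i j :=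
              Finset.single_le_sum (f := fun i => ∑ j, e ν i j) (fun _ _ => Nat.zero_le _)
                (Finset.mem_univ i)
      · refine ⟨one_ne_zero, ?_⟩
        rw [abs_one]
        exact one_le_pow₀ (by norm_num)
    · exact hwr.add hY (h.hws.mul hE)
  have hτc : ∀ᶠ ν in (Uf : Filter ℕ), ∀ j, 0 < Sh ν j + τ ν j ∧ Sh ν j + τ ν j ≤ 2 ^ ws ν := by
    filter_upwards [hτ, hO2, hpos, h.hyb] with ν g1 g2 g3 g4 j
    exact ⟨g3 _ (g2 g1) j, g4 _ (g2 g1) j⟩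
  have hterm : ∀ᶠ ν in (Uf : Filter ℕ), ∀ t ∈ Om2 ν, ∀ J : Finset (Fin n),
      ∑ i ∈ J, S'.u ν i * ∏ j, (Sh ν j + t j) ^ S'.e ν i j =
        (v ν) ^ (r ν - 1) * ∑ i ∈ J, tm (e ν) (u ν) (fun j => Sh ν j + t j) i := by
    filter_upwards [hτc, h2', hτ] with ν g1 g2 g3 t ht J
    rw [← sumII]
    refine Finset.sum_congr rfl fun i _ => ?_
    rw [hSe', hSu']
    simp only
    rw [if_pos g1, mul_assoc, ← Finset.prod_mul_distrib]
    congr 1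
    refine Finset.prod_congr rfl fun j _ => ?_
    by_cases hj : j ∈ I
    · rw [if_pos hj, if_pos hj, pow_zero, mul_one, g2 j hj t ht (τ ν) g3]
    · rw [if_neg hj, if_neg hj, pow_zero, one_mul]
  have h' := h.mono hO2
  obtain ⟨Om3, -, -, hO3, hB3, -, -, hcb⟩ := coreS hY hB2 h'.bdd S' hn Sh h'.hws
    (by filter_upwards [h.hSh] with ν g1 j; rw [abs_of_nonneg (g1 j).1]; exact (g1 j).2)
    (by filter_upwards [hpos, hO2] with ν g1 g2 t ht j; exact (g1 t (g2 ht) j).ne')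
    (by
      filter_upwards [hterm, heq, hv, hO2] with ν g1 g2 g3 g4 t ht J hJ
      rw [g1 t ht]
      exact mul_ne_zero (pow_ne_zero _ g3.1) ((g2 t (g4 ht)).2.2 J hJ))
    r (fun ν => ws ν + ws ν) (fun ν t => v ν * z ν t) hr hrF hww
    (by
      filter_upwards [hterm, heq, hv, hO2, hvz] with ν g1 g2 g3 g4 g5 t ht
      refine ⟨?_, ?_⟩
      · rw [abs_mul, pow_add]
        exact mul_le_mul g3.2 (g2 t (g4 ht)).1 (abs_nonneg _) (by positivity)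
      · rw [g1 t ht, (g2 t (g4 ht)).2.1, g5])
  choose B hB using hnotI
  obtain ⟨Om4, hO4, hB4, h4⟩ := hcb ⟨∑ _i : Fin n, ∑ j, (if hj : j ∈ I then 0 else B j hj), by
    have h5 : ∀ j : Fin N, ∀ᶠ ν in (Uf : Filter ℕ), ∀ i, (if j ∈ I then 0 else e ν i j) ≤
        if hj : j ∈ I then 0 else B j hj := by
      intro j
      by_cases hj : j ∈ I
      · exact Filter.Eventually.of_forall fun ν i => by rw [if_pos hj, dif_pos hj]
      · filter_upwards [hB j hj] with ν g1 i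
        rw [if_neg hj, dif_neg hj]
        exact g1 i
    filter_upwards [Filter.eventually_all.2 h5] with ν g1
    unfold TD.M
    rw [hSe']
    exact Finset.sum_le_sum fun i _ => Finset.sum_le_sum fun j _ => g1 j i⟩
  refine ⟨Om4, ?_, hB4, ?_, ?_⟩
  · filter_upwards [hO4, hO3, hO2] with ν g1 g2 g3
    exact (g1.trans g2).trans g3
  · have h5 : ∀ j : Fin N, ∀ᶠ ν in (Uf : Filter ℕ), (∃ i, ν ≤ e ν i j) → j ∈ I := by
      intro j
      by_cases hj : j ∈ I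
      · exact Filter.Eventually.of_forall fun _ _ => hj
      · filter_upwards [hB j hj, ev_ge (B j hj + 1)] with ν g1 g2 g3
        obtain ⟨i, hi⟩ := g3
        have := g1 i
        omega
    filter_upwards [Filter.eventually_all.2 h5, h2', hO4, hO3] with ν g1 g2 g3 g4 j₀ hj t ht t' ht'
    exact g2 j₀ (g1 j₀ hj) t (g4 (g3 ht)) t' (g4 (g3 ht'))
  · filter_upwards [h4, hv] with ν g1 g2 t ht t' ht'
    have g3 := g1 t ht t' ht'
    rw [mul_pow, mul_pow] at g3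
    exact mul_left_cancel₀ (pow_ne_zero _ g2.1) g3

end Pool.Agent.H8AB
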