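import Pool.Agent.H8AB.UpI
import Pool.Agent.H8AB.UpII

/-!
# Normalisation of the representations
-/

set_option autoImplicit false

namespace Pool.Agent.H8AB

open Filter Pool.Agent.Y902.GN Pool.Agent.N741.HB Pool.Agent.H8FC

/-- representations with exponents `e` -/
structure Rep {k N : ℕ} (Y : ℕ) (Ex : ℝ) (M : Fin N → ℕ) (u : Fin k → ℤ)
    (a : Fin k → ℤ) (y : Fin N → ℕ) (e : Fin k → Fin N → ℕ) : Prop where
  box : ∀ j, M j < y j ∧ y j ≤ M j + Y
  cop : ∀ j l, j ≠ l → Nat.Coprime (y j) (y l)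
  size : ∀ i, |(a i : ℝ)| ≤ Ex
  ne : ∀ i, a i ≠ 0
  eq : ∀ i, a i = u i * ∏ j, (y j : ℤ) ^ e i j

/-- the parts with large exponents -/
def parts {k N : ℕ} (R : ℕ) (y : Fin N → ℕ) (e : Fin k → Fin N → ℕ) (i : Fin k) : ℕ :=
  ∏ j, if R ≤ e i j then y j ^ e i j else 1

/-- the normalised exponents -/
def nrm {k N : ℕ} (y : Fin N → ℕ) (e : Fin k → Fin N → ℕ) (i : Fin k) (j : Fin N) : ℕ :=
  if y j = 1 then 0 else e i j

section

variable {k N Y : ℕ} {Ex : ℝ} {M : Fin N → ℕ} {u : Fin k → ℤ} {a : Fin k → ℤ} {y : Fin N → ℕ}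
  {e : Fin k → Fin N → ℕ}

theorem Rep.nrm (h : Rep Y Ex M u a y e) : Rep Y Ex M u a y (H8AB.nrm y e) where
  box := h.box
  cop := h.cop
  size := h.size
  ne := h.ne
  eq := by
    intro i
    rw [h.eq i]
    congr 1
    refine Finset.prod_congr rfl fun j _ => ?_
    unfold H8AB.nrm
    by_cases hj : y j = 1
    · rw [hj]; simp
    · rw [if_neg hj]

theorem parts_nrm {R : ℕ} : parts R y (nrm y e) = parts R y e := by
  funext i
  unfold parts nrm
  refine Finset.prod_congr rfl fun j _ => ?_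
  by_cases hj : y j = 1
  · rw [hj]; simp
  · rw [if_neg hj]

theorem Rep.pow_le (h : Rep Y Ex M u a y e) (i : Fin k) (j : Fin N) :
    ((y j : ℝ)) ^ e i j ≤ Ex := by
  have h1 : (y j : ℤ) ^ e i j ∣ a i := by
    rw [h.eq i]
    exact Dvd.dvd.mul_left (Finset.dvd_prod_of_mem (fun j => (y j : ℤ) ^ e i j)
      (Finset.mem_univ j)) _
  have h2 := Int.le_of_dvd (abs_pos.2 (h.ne i)) ((dvd_abs _ _).2 h1)
  refine le_trans ?_ (h.size i)
  exact_mod_cast h2

theorem Rep.u_le (h : Rep Y Ex M u a y e) (i : Fin k) : u i ≠ 0 ∧ |(u i : ℝ)| ≤ Ex := by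
  have h1 : u i ∣ a i := by
    rw [h.eq i]
    exact dvd_mul_right _ _
  have h0 : u i ≠ 0 := fun h0 => h.ne i (by rw [h.eq i, h0, zero_mul])
  have h2 := Int.le_of_dvd (abs_pos.2 (h.ne i)) ((dvd_abs _ _).2 ((abs_dvd _ _).2 h1))
  refine ⟨h0, le_trans ?_ (h.size i)⟩
  exact_mod_cast h2

theorem Rep.nrm_lt (h : Rep Y Ex M u a y e) {x : ℝ} (hx : Ex ≤ Real.exp x) (i : Fin k) (j : Fin N) :
    H8AB.nrm y e i j < ⌊((2 : ℕ) : ℝ) * x⌋₊ + 1 := by
  unfold H8AB.nrm
  by_cases hj : y j = 1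
  · rw [if_pos hj]; omega
  · rw [if_neg hj]
    refine exp_bd (c := Ex) (le_trans ?_ (h.pow_le i j)) hx
    have h2 : 2 ≤ y j := by have := (h.box j).1; omega
    exact pow_le_pow_left₀ (by norm_num) (by exact_mod_cast h2) _

/-- if the bound for the members is smaller than `2 ^ R`, all parts are one -/
theorem Rep.parts_one (h : Rep Y Ex M u a y e) {R : ℕ} (hR : Ex < 2 ^ R) : parts R y e = 1 := by
  funext i
  unfold parts
  refine Finset.prod_eq_one fun j _ => ?_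
  split_ifs with h1
  · by_cases hj : y j = 1
    · rw [hj, one_pow]
    · exfalso
      have h2 : 2 ≤ y j := by have := (h.box j).1; omega
      have h3 := h.pow_le i j
      have h4 : (2 : ℝ) ^ R ≤ (y j : ℝ) ^ e i j := by
        calc (2 : ℝ) ^ R ≤ 2 ^ e i j := pow_le_pow_right₀ (by norm_num) h1
          _ ≤ (y j : ℝ) ^ e i j := pow_le_pow_left₀ (by norm_num) (by exact_mod_cast h2) _
      linarith
  · rfl

open Classical in
/-- the shifts -/
noncomputable def sh (M : Fin N → ℕ) (E : Fin k → Fin N → ℕ) (j : Fin N) : ℤ :=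
  if (∃ i, E i j ≠ 0) then (M j : ℤ) else 0

open Classical in
/-- the points -/
noncomputable def pnt (M : Fin N → ℕ) (E : Fin k → Fin N → ℕ) (y : Fin N → ℕ) (j : Fin N) : ℤ :=
  if (∃ i, E i j ≠ 0) then (y j : ℤ) - M j else 1

theorem sh_add (M : Fin N → ℕ) (E : Fin k → Fin N → ℕ) (y : Fin N → ℕ) (j : Fin N) :
    (∃ i, E i j ≠ 0) ∧ sh M E j + pnt M E y j = y j ∨
    (∀ i, E i j = 0) ∧ sh M E j + pnt M E y j = 1 := by
  unfold sh pnt
  by_cases h : ∃ i, E i j ≠ 0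
  · left
    rw [if_pos h, if_pos h]
    exact ⟨h, by ring⟩
  · right
    rw [if_neg h, if_neg h]
    push Not at h
    exact ⟨h, by ring⟩

theorem tm_pnt (M : Fin N → ℕ) (E : Fin k → Fin N → ℕ) (y : Fin N → ℕ) (u : Fin k → ℤ)
    (i : Fin k) : tm E u (fun j => sh M E j + pnt M E y j) i = u i * ∏ j, (y j : ℤ) ^ E i j := by
  unfold tm
  congr 1
  refine Finset.prod_congr rfl fun j _ => ?_
  show (sh M E j + pnt M E y j) ^ E i j = _
  rcases sh_add M E y j with ⟨_, h⟩ | ⟨h, h'⟩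
  · rw [h]
  · rw [h', h i, pow_zero, pow_zero]

theorem parts_pnt (M : Fin N → ℕ) (E : Fin k → Fin N → ℕ) (y : Fin N → ℕ) {R : ℕ} (hR : 1 ≤ R)
    (i : Fin k) : (parts R y E i : ℤ) =
      ∏ j, if R ≤ E i j then (sh M E j + pnt M E y j) ^ E i j else 1 := by
  unfold parts
  push_cast
  refine Finset.prod_congr rfl fun j _ => ?_
  split_ifs with h1
  · rcases sh_add M E y j with ⟨_, h⟩ | ⟨h, h'⟩
    · rw [h]
    · rw [h i] at h1; omega
  · rfl

/-- the properties of the points -/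
theorem Rep.pnt_prop (h : Rep Y Ex M u a y e) {F : ℕ} (hF : Ex ≤ 2 ^ F) (hY : 1 ≤ Y) :
    (∀ j, 0 < pnt M e y j ∧ |pnt M e y j| ≤ (Y : ℤ)) ∧
    (∀ j, 0 ≤ sh M e j ∧ sh M e j ≤ 2 ^ F ∧ sh M e j + pnt M e y j ≤ 2 ^ F) ∧
    (∀ j l, j ≠ l → IsCoprime (sh M e j + pnt M e y j) (sh M e l + pnt M e y l)) := by
  have h1F : (1 : ℤ) ≤ 2 ^ F := one_le_pow₀ (by norm_num)
  have hyF : ∀ j, (∃ i, e i j ≠ 0) → (y j : ℤ) ≤ 2 ^ F := by
    rintro j ⟨i, hi⟩
    have h1 := h.pow_le i j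
    have h2 : (y j : ℝ) ≤ (y j : ℝ) ^ e i j := by
      refine le_self_pow₀ ?_ hi
      have : 1 ≤ y j := by have := (h.box j).1; omega
      exact_mod_cast this
    have h3 : (y j : ℝ) ≤ 2 ^ F := (h2.trans h1).trans hF
    exact_mod_cast h3
  refine ⟨fun j => ?_, fun j => ?_, fun j l hjl => ?_⟩
  · unfold pnt
    have hb := h.box j
    split_ifs with h1
    · refine ⟨by omega, ?_⟩
      rw [abs_of_nonneg (by omega)]
      omega
    · refine ⟨one_pos, ?_⟩
      rw [abs_one]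
      exact_mod_cast hY
  · have hb := h.box j
    refine ⟨?_, ?_, ?_⟩
    · unfold sh; split_ifs
      · positivity
      · exact le_rfl
    · unfold sh
      split_ifs with h1
      · have := hyF j h1
        omega
      · positivity
    · rcases sh_add M e y j with ⟨h1, h2⟩ | ⟨_, h2⟩
      · rw [h2]; exact hyF j h1
      · rw [h2]; exact h1F
  · rcases sh_add M e y j with ⟨_, h2⟩ | ⟨_, h2⟩
    · rcases sh_add M e y l with ⟨_, h4⟩ | ⟨_, h4⟩
      · rw [h2, h4]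
        exact Nat.isCoprime_iff_coprime.2 (h.cop j l hjl)
      · rw [h4]; exact isCoprime_one_right
    · rw [h2]; exact isCoprime_one_left

end

end Pool.Agent.H8AB
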