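import Pool.Agent.H8AB.Div
import Pool.Agent.H8FC.CoreS
import Pool.Agent.N42.HK.Dio

/-!
# Bases with very different exponents in two terms are constant
-/

set_option autoImplicit false

namespace Pool.Agent.H8AB

open Filter Pool.Agent.Y902.GN Pool.Agent.N741.HB Pool.Agent.H8FC

theorem pos_part_mul {N : ℕ} (y c : Fin N → ℤ) (hy : ∀ j, 0 < y j) :
    (∏ j, (y j : ℚ) ^ c j) * ((∏ j with ¬ 0 < c j, y j ^ (-c j).toNat : ℤ) : ℚ) =
      ((∏ j with 0 < c j, y j ^ (c j).toNat : ℤ) : ℚ) := by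
  classical
  rw [Finset.prod_filter, Finset.prod_filter, Int.cast_prod, Int.cast_prod,
    ← Finset.prod_mul_distrib]
  refine Finset.prod_congr rfl fun j _ => ?_
  have h0 : (y j : ℚ) ≠ 0 := by exact_mod_cast (hy j).ne'
  by_cases h : 0 < c j
  · rw [if_neg (not_not.2 h), if_pos h, Int.cast_one, mul_one, Int.cast_pow, ← zpow_natCast,
      Int.toNat_of_nonneg h.le]
  · rw [if_pos h, if_neg h, Int.cast_one, Int.cast_pow, ← zpow_natCast,
      Int.toNat_of_nonneg (by omega), ← zpow_add₀ h0, add_neg_cancel, zpow_zero]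

theorem pos_part_eq {N : ℕ} (y y' c : Fin N → ℤ) (hy : ∀ j, 0 < y j) (hy' : ∀ j, 0 < y' j)
    (hcop : ∀ j k, j ≠ k → IsCoprime (y j) (y k)) (hcop' : ∀ j k, j ≠ k → IsCoprime (y' j) (y' k))
    (h : ∏ j, (y j : ℚ) ^ c j = ∏ j, (y' j : ℚ) ^ c j) :
    ∏ j with 0 < c j, y j ^ (c j).toNat = ∏ j with 0 < c j, y' j ^ (c j).toNat := by
  classical
  have h1 := pos_part_mul y c hy
  have h2 := pos_part_mul y' c hy'
  have hcp : ∀ x : Fin N → ℤ, (∀ j k, j ≠ k → IsCoprime (x j) (x k)) →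
      IsCoprime (∏ j with 0 < c j, x j ^ (c j).toNat) (∏ j with ¬ 0 < c j, x j ^ (-c j).toNat) := by
    intro x hx
    refine IsCoprime.prod_left fun j hj => IsCoprime.prod_right fun k hk => ?_
    refine (hx j k ?_).pow
    rintro rfl
    exact (Finset.mem_filter.1 hk).2 (Finset.mem_filter.1 hj).2
  have hpos : ∀ (x : Fin N → ℤ), (∀ j, 0 < x j) → 0 < ∏ j with 0 < c j, x j ^ (c j).toNat :=
    fun x hx => Finset.prod_pos fun j _ => pow_pos (hx j) _
  have h3 : (∏ j with 0 < c j, y j ^ (c j).toNat) * (∏ j with ¬ 0 < c j, y' j ^ (-c j).toNat) =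
      (∏ j with 0 < c j, y' j ^ (c j).toNat) * (∏ j with ¬ 0 < c j, y j ^ (-c j).toNat) := by
    have h4 : ((∏ j with 0 < c j, y j ^ (c j).toNat : ℤ) : ℚ) *
        ((∏ j with ¬ 0 < c j, y' j ^ (-c j).toNat : ℤ) : ℚ) =
        ((∏ j with 0 < c j, y' j ^ (c j).toNat : ℤ) : ℚ) *
        ((∏ j with ¬ 0 < c j, y j ^ (-c j).toNat : ℤ) : ℚ) := by
      rw [← h1, ← h2, h]
      ring
    exact_mod_cast h4
  apply le_antisymm
  · refine Int.le_of_dvd (hpos y' hy') ?_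
    exact (hcp y hcop).dvd_of_dvd_mul_right (by rw [← h3]; exact dvd_mul_right _ _)
  · refine Int.le_of_dvd (hpos y hy) ?_
    exact (hcp y' hcop').dvd_of_dvd_mul_right (by rw [h3]; exact dvd_mul_right _ _)

/-- **One step.** -/
theorem step {Y : ℕ → ℕ} {N n : ℕ} (hY : ∀ m : ℕ, ∀ᶠ ν in (Uf : Filter ℕ), m ≤ Y ν)
    {Om : ℕ → Finset (Fin N → ℤ)} (hbig : Big Y Om) (hbd : Bdd Y Om) (S : TD Y N n)
    (Sh : ℕ → Fin N → ℤ) {ws : ℕ → ℕ} (hws : Few Y ws)
    (hSh : ∀ᶠ ν in (Uf : Filter ℕ), ∀ j, 0 ≤ Sh ν j ∧ Sh ν j ≤ 2 ^ ws ν)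
    (htpos : ∀ᶠ ν in (Uf : Filter ℕ), ∀ t ∈ Om ν, ∀ j, 0 < t j)
    (hcop : ∀ᶠ ν in (Uf : Filter ℕ), ∀ t ∈ Om ν, ∀ j k, j ≠ k →
      IsCoprime (Sh ν j + t j) (Sh ν k + t k))
    (hnvs : ∀ᶠ ν in (Uf : Filter ℕ), ∀ t ∈ Om ν, ∀ J : Finset (Fin n), J.Nonempty →
      ∑ i ∈ J, S.u ν i * ∏ j, (Sh ν j + t j) ^ S.e ν i j ≠ 0)
    (r w : ℕ → ℕ) (z : ℕ → (Fin N → ℤ) → ℤ) (hr : ∀ m : ℕ, ∀ᶠ ν in (Uf : Filter ℕ), m ≤ r ν)
    (hrF : Few Y r) (hwF : Few Y w)
    (hz : ∀ᶠ ν in (Uf : Filter ℕ), ∀ t ∈ Om ν, |z ν t| ≤ 2 ^ w ν ∧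
      ∑ i, S.u ν i * ∏ j, (Sh ν j + t j) ^ S.e ν i j = z ν t ^ r ν)
    (i i' : Fin n) (j₀ : Fin N)
    (hinf : ∀ B : ℕ, ∀ᶠ ν in (Uf : Filter ℕ), S.e ν i' j₀ + B ≤ S.e ν i j₀) :
    ∃ Om₃ : ℕ → Finset (Fin N → ℤ), (∀ᶠ ν in (Uf : Filter ℕ), Om₃ ν ⊆ Om ν) ∧ Big Y Om₃ ∧
      ∀ᶠ ν in (Uf : Filter ℕ), ∀ t ∈ Om₃ ν, ∀ t' ∈ Om₃ ν, t j₀ = t' j₀ := by
  classical
  have hn : 0 < n := by have := i.2; omega
  have hy : ∀ᶠ ν in (Uf : Filter ℕ), ∀ t ∈ Om ν, ∀ j, 0 < Sh ν j + t j := by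
    filter_upwards [hSh, htpos] with ν h1 h2 t ht j
    have := (h1 j).1
    have := h2 t ht j
    omega
  obtain ⟨Om1, C, H, hO1, hB1, hH, hcst, -⟩ := coreS hY hbig hbd S hn Sh hws
    (by filter_upwards [hSh] with ν h j; rw [abs_of_nonneg (h j).1]; exact (h j).2)
    (by filter_upwards [hy] with ν h t ht j; exact (h t ht j).ne') hnvs r w z hr hrF hwF hz
  obtain ⟨B, hB⟩ := N42.HK.dio N C
  have hex : ∀ᶠ ν in (Uf : Filter ℕ), ∃ a' : Fin N → ℤ, (∀ j, |a' j| ≤ (B : ℤ)) ∧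
      H ν ((fun j => (S.e ν i j : ℤ) - (S.e ν i' j : ℤ)) - a') = 0 := by
    filter_upwards [hH] with ν h1
    exact hB (H ν) h1.1 h1.2.1 h1.2.2.1 h1.2.2.2.1 _ (h1.2.2.2.2 i i')
  obtain ⟨a', ha'⟩ := hex.choice
  obtain ⟨c, hc⟩ : ∃ c : ℕ → Fin N → ℤ, ∀ ν, c ν =
      (fun j => (S.e ν i j : ℤ) - (S.e ν i' j : ℤ)) - a' ν := ⟨_, fun _ => rfl⟩
  have hcj : ∀ᶠ ν in (Uf : Filter ℕ), 0 < c ν j₀ := by
    filter_upwards [ha', hinf (B + 1)] with ν h1 h2
    rw [hc]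
    have h3 := (abs_le.1 (h1.1 j₀)).2
    simp only [Pi.sub_apply]
    omega
  obtain ⟨Om2, hO2, hB2, h2⟩ := hcst c (by filter_upwards [ha'] with ν h; rw [hc]; exact h.2) Om1
    (Filter.Eventually.of_forall fun _ => subset_rfl) hB1
  -- the restrictions take few values
  have hpp : ∀ᶠ ν in (Uf : Filter ℕ), ∀ t ∈ Om2 ν, ∀ t' ∈ Om2 ν,
      ∏ j with 0 < c ν j, (Sh ν j + t j) ^ (c ν j).toNat =
        ∏ j with 0 < c ν j, (Sh ν j + t' j) ^ (c ν j).toNat := by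
    filter_upwards [h2, hO2, hO1, hy, hcop] with ν g1 g2 g3 g4 g5 t ht t' ht'
    exact pos_part_eq _ _ _ (g4 t (g3 (g2 ht))) (g4 t' (g3 (g2 ht'))) (g5 t (g3 (g2 ht)))
      (g5 t' (g3 (g2 ht'))) (g1 t ht t' ht')
  obtain ⟨Om3, hO3, hB3, h3⟩ := hB2.fiber
    (fun ν t => fun l => if 0 < c ν l then (Sh ν l + t l).toNat else 0)
    (fun ν => (Om2 ν).image fun t => fun l => if 0 < c ν l then (Sh ν l + t l).toNat else 0)
    (Filter.Eventually.of_forall fun ν t ht => Finset.mem_image_of_mem _ ht) (by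
      refine (((few_Db hY N).add hY (Few.const hY 1)).pow N).mono ?_
      filter_upwards [hpp, hB2.nonempty, hO2, hO1, hy, hSh, htpos, hbd] with ν g1 g2 g3 g4 g5 g6
        g7 g8
      obtain ⟨t₀, ht₀⟩ := g2
      have hcast : ∀ t ∈ Om2 ν, ∀ l, (((Sh ν l + t l).toNat : ℕ) : ℤ) = Sh ν l + t l :=
        fun t ht l => Int.toNat_of_nonneg (g5 t (g4 (g3 ht)) l).le
      have h5 : ((Om2 ν).image fun t => fun l => if 0 < c ν l then (Sh ν l + t l).toNat
          else 0).card ≤ Db N (Y ν) ^ (Finset.univ.filter fun l => 0 < c ν l).card := by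
        refine card_sol (Y ν) (fun l => (Sh ν l).toNat) (fun l => (c ν l).toNat) _
          (Finset.univ.filter fun l => 0 < c ν l) rfl (fun l hl => ?_)
          (∏ l ∈ Finset.univ.filter (fun l => 0 < c ν l), (Sh ν l + t₀ l).toNat ^ (c ν l).toNat)
          ?_ _ ?_
        · have := (Finset.mem_filter.1 hl).2
          omega
        · refine Finset.prod_pos fun l _ => Nat.pow_pos ?_
          have := g5 t₀ (g4 (g3 ht₀)) l
          omega
        · intro y hy'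
          obtain ⟨t, ht, rfl⟩ := Finset.mem_image.1 hy'
          refine ⟨fun l hl => ?_, fun l hl => ?_, ?_⟩
          · have h6 := (Finset.mem_filter.1 hl).2
            simp only [h6, if_true]
            have k1 := g6 l
            have k2 := g7 t (g4 (g3 ht)) l
            have k3 := (g8 t (g4 (g3 ht)) l).2
            rw [abs_of_pos k2] at k3
            omega
          · have h6 : ¬ 0 < c ν l := fun h => hl (Finset.mem_filter.2 ⟨Finset.mem_univ _, h⟩)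
            simp only [h6, if_false]
          · have h7 : ∏ l ∈ Finset.univ.filter (fun l => 0 < c ν l),
                (if 0 < c ν l then (Sh ν l + t l).toNat else 0) ^ (c ν l).toNat =
                ∏ l ∈ Finset.univ.filter (fun l => 0 < c ν l),
                  (Sh ν l + t l).toNat ^ (c ν l).toNat :=
              Finset.prod_congr rfl fun l hl => by rw [if_pos (Finset.mem_filter.1 hl).2]
            rw [h7]
            have h8 := g1 t ht t₀ ht₀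
            have h9 : ((∏ l ∈ Finset.univ.filter (fun l => 0 < c ν l),
                (Sh ν l + t l).toNat ^ (c ν l).toNat : ℕ) : ℤ) =
                ((∏ l ∈ Finset.univ.filter (fun l => 0 < c ν l),
                (Sh ν l + t₀ l).toNat ^ (c ν l).toNat : ℕ) : ℤ) := by
              rw [Nat.cast_prod, Nat.cast_prod,
                Finset.prod_congr rfl fun l _ => by rw [Nat.cast_pow, hcast t ht l], h8]
              exact Finset.prod_congr rfl fun l _ => by rw [Nat.cast_pow, hcast t₀ ht₀ l]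
            exact_mod_cast h9
      refine h5.trans ?_
      have h6 : (Finset.univ.filter fun l => 0 < c ν l).card ≤ N := by
        refine (Finset.card_le_univ _).trans ?_
        rw [Fintype.card_fin]
      calc Db N (Y ν) ^ (Finset.univ.filter fun l => 0 < c ν l).card
          ≤ (Db N (Y ν) + 1) ^ (Finset.univ.filter fun l => 0 < c ν l).card :=
            Nat.pow_le_pow_left (by omega) _
        _ ≤ (Db N (Y ν) + 1) ^ N := Nat.pow_le_pow_right (by omega) h6)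
  refine ⟨Om3, ?_, hB3, ?_⟩
  · filter_upwards [hO3, hO2, hO1] with ν g1 g2 g3
    exact (g1.trans g2).trans g3
  · filter_upwards [h3, hcj, hO3, hO2, hO1, hy] with ν g1 g2 g3 g4 g5 g6 t ht t' ht'
    have h4 := congrFun (g1 t ht t' ht') j₀
    simp only [g2, if_true] at h4
    have k1 := g6 t (g5 (g4 (g3 ht))) j₀
    have k2 := g6 t' (g5 (g4 (g3 ht'))) j₀
    omega

end Pool.Agent.H8AB
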