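import Pool.Agent.H8AB.All

/-!
# Admissible tuples all of whose members are products of powers
-/

set_option autoImplicit false

namespace Pool.Agent.H8AB

open Filter Pool.Agent.Y902.GN Pool.Agent.N741.HB Pool.Agent.H8FC

variable {Y : ℕ → ℕ} {N n : ℕ} {Om : ℕ → Finset (Fin N → ℤ)} {e : ℕ → Fin (n + 1) → Fin N → ℕ}
  {u : ℕ → Fin (n + 1) → ℤ} {Sh : ℕ → Fin N → ℤ} {ws : ℕ → ℕ}

/-- sum zero and no vanishing partial sum -/
def Adm {k : ℕ} (a : Fin k → ℤ) : Prop :=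
  ∑ i, a i = 0 ∧ ∀ K : Finset (Fin k), K.Nonempty → K ≠ Finset.univ → ∑ i ∈ K, a i ≠ 0

/-- the left hand side with the member `i₀` omitted, after multiplication -/
theorem lhs_eq (e : Fin (n + 1) → Fin N → ℕ) (u : Fin (n + 1) → ℤ) (y : Fin N → ℤ)
    (i₀ : Fin (n + 1)) (r : ℕ) (J : Finset (Fin n)) :
    ∑ i ∈ J, (u (i₀.succAbove i) * (-u i₀) ^ r) *
      ∏ j, y j ^ (e (i₀.succAbove i) j + (r + 1 - e i₀ j % (r + 1))) =
    (-u i₀) ^ r * (∏ j, y j ^ (r + 1 - e i₀ j % (r + 1))) *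
      ∑ i ∈ J, tm e u y (i₀.succAbove i) := by
  rw [Finset.mul_sum]
  refine Finset.sum_congr rfl fun i _ => ?_
  unfold tm
  simp only [pow_add, Finset.prod_mul_distrib]
  ring

theorem lhs_pow (e : Fin (n + 1) → Fin N → ℕ) (u : Fin (n + 1) → ℤ) (y : Fin N → ℤ)
    (i₀ : Fin (n + 1)) (r : ℕ) (h : ∑ i, tm e u y i = 0) :
    ∑ i : Fin n, (u (i₀.succAbove i) * (-u i₀) ^ r) *
      ∏ j, y j ^ (e (i₀.succAbove i) j + (r + 1 - e i₀ j % (r + 1))) =
    ((-u i₀) * ∏ j, y j ^ (e i₀ j / (r + 1) + 1)) ^ (r + 1) := by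
  rw [lhs_eq]
  have h1 : ∑ i : Fin n, tm e u y (i₀.succAbove i) = -tm e u y i₀ := by
    rw [Fin.sum_univ_succAbove _ i₀] at h
    linarith
  rw [h1, mul_pow, pow_succ (-u i₀) r]
  have h2 : (∏ j, y j ^ (e i₀ j / (r + 1) + 1)) ^ (r + 1) =
      (∏ j, y j ^ (r + 1 - e i₀ j % (r + 1))) * ∏ j, y j ^ e i₀ j := by
    rw [← Finset.prod_pow, ← Finset.prod_mul_distrib]
    refine Finset.prod_congr rfl fun j _ => ?_
    rw [← pow_mul, ← pow_add]
    congr 1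
    have h3 := Nat.div_add_mod (e i₀ j) (r + 1)
    have h4 := Nat.mod_lt (e i₀ j) (show 0 < r + 1 by omega)
    have h5 : (e i₀ j / (r + 1) + 1) * (r + 1) = (r + 1) * (e i₀ j / (r + 1)) + (r + 1) := by ring
    rw [h5]
    omega
  rw [h2]
  unfold tm
  ring

/-- **One base is constant.** -/
theorem oneI (hn : 2 ≤ n) (hY : ∀ m : ℕ, ∀ᶠ ν in (Uf : Filter ℕ), m ≤ Y ν)
    (hYv : Few Y (fun ν => ν)) (hbig : Big Y Om) (h : HB Y Om e u Sh ws)
    (hadm : ∀ᶠ ν in (Uf : Filter ℕ), ∀ t ∈ Om ν, Adm (tm (e ν) (u ν) (fun j => Sh ν j + t j)))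
    (j₀ : Fin N) :
    ∃ Om₃ : ℕ → Finset (Fin N → ℤ), (∀ᶠ ν in (Uf : Filter ℕ), Om₃ ν ⊆ Om ν) ∧ Big Y Om₃ ∧
      ∀ᶠ ν in (Uf : Filter ℕ), (∃ i, ν ≤ e ν i j₀) → ∀ t ∈ Om₃ ν, ∀ t' ∈ Om₃ ν, t j₀ = t' j₀ := by
  classical
  by_cases hc : ∀ᶠ ν in (Uf : Filter ℕ), ∃ i, ν ≤ e ν i j₀
  swap
  · rw [← ev_not] at hc
    refine ⟨Om, Filter.Eventually.of_forall fun _ => subset_rfl, hbig, ?_⟩
    filter_upwards [hc] with ν h1 h2
    exact absurd h2 h1
  obtain ⟨i, hi⟩ := ev_exists hc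
  rcases h.split hY hbig j₀ with ⟨Om₃, h1, h2, h3⟩ | ⟨i', hi'⟩
  · exact ⟨Om₃, h1, h2, by filter_upwards [h3] with ν h4 _; exact h4⟩
  obtain ⟨i₀, hi₀⟩ : ∃ i₀ : Fin (n + 1), i₀ ∉ ({i, i'} : Finset (Fin (n + 1))) := by
    by_contra hcon
    push Not at hcon
    have h1 : (Finset.univ : Finset (Fin (n + 1))) ⊆ {i, i'} := fun x _ => hcon x
    have h2 := Finset.card_le_card h1
    rw [Finset.card_univ, Fintype.card_fin] at h2
    have h3 : ({i, i'} : Finset (Fin (n + 1))).card ≤ 2 := Finset.card_le_two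
    omega
  rw [Finset.mem_insert, Finset.mem_singleton, not_or] at hi₀
  obtain ⟨i1, hi1⟩ := Fin.exists_succAbove_eq (Ne.symm hi₀.1)
  obtain ⟨i2, hi2⟩ := Fin.exists_succAbove_eq (Ne.symm hi₀.2)
  -- the system of terms
  have hE : Few Y (fun ν => ∑ i, ∑ j, e ν i j) := h.he
  have hν1 : Few Y (fun ν => ν + 1) := hYv.add hY (Few.const hY 1)
  obtain ⟨S, hSe, hSu⟩ : ∃ S : TD Y N n,
      (∀ ν, S.e ν = fun i j => e ν (i₀.succAbove i) j + (ν + 1 - e ν i₀ j % (ν + 1))) ∧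
      (∀ ν, S.u ν = fun i => u ν (i₀.succAbove i) * (-u ν i₀) ^ ν) := by
    refine ⟨⟨fun ν => fun i j => e ν (i₀.succAbove i) j + (ν + 1 - e ν i₀ j % (ν + 1)),
      fun ν => fun i => u ν (i₀.succAbove i) * (-u ν i₀) ^ ν,
      fun ν => ws ν + ws ν * ν, ?_, ?_, ?_⟩, fun _ => rfl, fun _ => rfl⟩
    · have h1 : Few Y (fun ν => (∑ i, ∑ j, e ν i j) + (n * N) * (ν + 1)) :=
        hE.add hY ((Few.const hY (n * N)).mul hν1)
      refine h1.mono (Filter.Eventually.of_forall fun ν => ?_)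
      simp only [Finset.sum_add_distrib]
      refine Nat.add_le_add ?_ ?_
      · rw [Fin.sum_univ_succAbove (fun i => ∑ j, e ν i j) i₀]
        exact Nat.le_add_left _ _
      · rw [Finset.sum_const, Finset.card_univ, Fintype.card_fin, smul_eq_mul, mul_assoc]
        refine Nat.mul_le_mul_left _ ?_
        refine (Finset.sum_le_card_nsmul _ _ (ν + 1) fun j _ => Nat.sub_le _ _).trans ?_
        rw [Finset.card_univ, Fintype.card_fin, smul_eq_mul]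
    · filter_upwards [h.hu] with ν h1 i
      refine ⟨mul_ne_zero (h1 _).1 (pow_ne_zero _ (neg_ne_zero.2 (h1 _).1)), ?_⟩
      rw [abs_mul, abs_pow, abs_neg, pow_add, pow_mul]
      exact mul_le_mul (h1 _).2 (pow_le_pow_left₀ (abs_nonneg _) (h1 _).2 _) (by positivity)
        (by positivity)
    · exact h.hws.add hY (h.hws.mul hYv)
  have hpos : ∀ᶠ ν in (Uf : Filter ℕ), ∀ t ∈ Om ν, ∀ j, 0 < Sh ν j + t j := by
    filter_upwards [h.hSh, h.htpos] with ν h1 h2 t ht j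
    have := (h1 j).1
    have := h2 t ht j
    omega
  obtain ⟨Om₃, h1, h2, h3⟩ := step hY hbig h.bdd S Sh h.hws h.hSh h.htpos h.hcop
    (by
      filter_upwards [hadm, hpos, h.hu] with ν g1 g2 g3 t ht J hJ
      rw [hSe, hSu]
      have h4 := lhs_eq (e ν) (u ν) (fun j => Sh ν j + t j) i₀ ν J
      simp only at h4 ⊢
      rw [h4]
      refine mul_ne_zero (mul_ne_zero (pow_ne_zero _ (neg_ne_zero.2 (g3 _).1))
        (Finset.prod_ne_zero_iff.2 fun j _ => pow_ne_zero _ (g2 t ht j).ne')) ?_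
      have h5 := (g1 t ht).2 (J.map i₀.succAboveEmb) (hJ.map) (by
        intro hcon
        have h6 : i₀ ∈ J.map i₀.succAboveEmb := by rw [hcon]; exact Finset.mem_univ _
        obtain ⟨q, _, hq⟩ := Finset.mem_map.1 h6
        exact Fin.succAbove_ne i₀ q hq)
      rw [Finset.sum_map] at h5
      exact h5)
    (fun ν => ν + 1) (fun ν => ws ν + ws ν * ((∑ i, ∑ j, e ν i j) + N))
    (fun ν t => (-u ν i₀) * ∏ j, (Sh ν j + t j) ^ (e ν i₀ j / (ν + 1) + 1))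
    (fun m => by filter_upwards [ev_ge m] with ν h4; omega) hν1
    (h.hws.add hY (h.hws.mul (hE.add hY (Few.const hY N))))
    (by
      filter_upwards [hadm, hpos, h.hu, h.hyb] with ν g1 g2 g3 g4 t ht
      constructor
      · rw [abs_mul, abs_neg, pow_add]
        refine mul_le_mul (g3 _).2 ?_ (abs_nonneg _) (by positivity)
        refine abs_prod_le (fun j => Sh ν j + t j) (fun j => e ν i₀ j / (ν + 1) + 1) _ _
          (fun j => ⟨g2 t ht j, g4 t ht j⟩) ?_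
        rw [Finset.sum_add_distrib, Finset.sum_const, Finset.card_univ, Fintype.card_fin,
          smul_eq_mul, mul_one]
        refine Nat.add_le_add_right ?_ _
        calc ∑ j, e ν i₀ j / (ν + 1) ≤ ∑ j, e ν i₀ j :=
              Finset.sum_le_sum fun j _ => Nat.div_le_self _ _
          _ ≤ ∑ i, ∑ j, e ν i j :=
              Finset.single_le_sum (f := fun i => ∑ j, e ν i j) (fun _ _ => Nat.zero_le _)
                (Finset.mem_univ i₀)
      · rw [hSe, hSu]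
        exact lhs_pow (e ν) (u ν) (fun j => Sh ν j + t j) i₀ ν (g1 t ht).1)
    i1 i2 j₀ (by
      intro B
      filter_upwards [hi, hi', ev_ge B] with ν g1 g2 g3
      rw [hSe]
      simp only
      rw [hi1, hi2, g2]
      omega)
  exact ⟨Om₃, h1, h2, by filter_upwards [h3] with ν h4 _; exact h4⟩

/-- **All bases with large exponents are constant.** -/
theorem upI (hn : 2 ≤ n) (hY : ∀ m : ℕ, ∀ᶠ ν in (Uf : Filter ℕ), m ≤ Y ν)
    (hYv : Few Y (fun ν => ν)) (hbig : Big Y Om) (h : HB Y Om e u Sh ws)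
    (hadm : ∀ᶠ ν in (Uf : Filter ℕ), ∀ t ∈ Om ν, Adm (tm (e ν) (u ν) (fun j => Sh ν j + t j))) :
    ∃ Om₃ : ℕ → Finset (Fin N → ℤ), (∀ᶠ ν in (Uf : Filter ℕ), Om₃ ν ⊆ Om ν) ∧ Big Y Om₃ ∧
      ∀ᶠ ν in (Uf : Filter ℕ), ∀ j₀, (∃ i, ν ≤ e ν i j₀) →
        ∀ t ∈ Om₃ ν, ∀ t' ∈ Om₃ ν, t j₀ = t' j₀ := by
  classical
  obtain ⟨Om₃, h1, h2, h3⟩ := hbig.const_all Finset.univ
    (fun j₀ ν t => if (∃ i, ν ≤ e ν i j₀) then t j₀ else 0) fun j₀ _ A' hA' hb' => by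
      obtain ⟨Om₃, h1, h2, h3⟩ := oneI hn hY hYv hb' (h.mono hA')
        (by
          filter_upwards [hadm, hA'] with ν g1 g2 t ht
          exact g1 t (g2 ht)) j₀
      refine ⟨Om₃, h1, h2, ?_⟩
      filter_upwards [h3] with ν h4 t ht t' ht'
      by_cases h5 : ∃ i, ν ≤ e ν i j₀
      · rw [if_pos h5, if_pos h5]; exact h4 h5 t ht t' ht'
      · rw [if_neg h5, if_neg h5]
  refine ⟨Om₃, h1, h2, ?_⟩
  filter_upwards [Filter.eventually_all.2 fun j₀ => h3 j₀ (Finset.mem_univ _)] with ν h4 j₀ h5 t ht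
    t' ht'
  have h6 := h4 j₀ t ht t' ht'
  rwa [if_pos h5, if_pos h5] at h6

end Pool.Agent.H8AB
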